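import Pool.Agent.Lib.MP_acf5a6_lc.Check

/-!
Every function computed in polynomial time by a multi-stack Turing machine satisfies `PT`, so
polynomial-time many-one reducibility is transitive.
-/

set_option autoImplicit false
set_option linter.unusedSectionVars false

namespace Pool.Agent.Lib.MP_73cdf8_lc

open Turing Function Pool.Agent.Lib.MP_acf5a6_lc N487b59b3

/-- An encoding given by an injective map to an encoded type. -/
@[reducible] noncomputable def encInj {α β : Type} [N487b59b3 β] (e : α → β) (he : Injective e) :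
    N487b59b3 α :=
  open Classical in
  ofLeftInverse e (fun b => if h : ∃ a, e a = b then some h.choose else none) fun a => by
    have h : ∃ a', e a' = e a := ⟨a, rfl⟩
    simp only [dif_pos h]
    rw [he h.choose_spec]

/-- An encoding of a finite type. -/
@[reducible] noncomputable def encFin (α : Type) [Finite α] : N487b59b3 α :=
  encInj (fun a => ((Finite.equivFin α a : Fin _) : ℕ))
    (Fin.val_injective.comp (Finite.equivFin α).injective)

section fin

variable {α β ι : Type} [N487b59b3 α] [N487b59b3 β] [N487b59b3 ι]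

theorem PT_finCases [Finite ι] {F : ι → α → β} (hF : ∀ i, PT (F i)) {g : α → ι} (hg : PT g) :
    PT (fun a => F (g a) a) := by
  classical
  by_cases hι : Nonempty ι
  swap
  · exact Comp.pull (Comp.refl (fun a : α => bitEncode a)) id (fun _ => rfl)
      (fun a => absurd ⟨g a⟩ hι)
  obtain ⟨i₀⟩ := hι
  have key : ∀ s : List ι, PT (fun a => if g a ∈ s then F (g a) a else F i₀ a) := by
    intro s
    induction s with
    | nil => exact (hF i₀).of_eq (fun a => by simp)
    | cons i s ih =>
      refine (PT.ite' (p := fun a => g a = i) (PT.decide_eq hg (PT.const i)) (hF i) ih).of_eq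
        (fun a => ?_)
      by_cases h : g a = i
      · simp [h]
      · simp [h]
  have := Fintype.ofFinite ι
  exact (key Finset.univ.toList).of_eq (fun a => by simp)

theorem PT_table [Finite ι] (t : ι → β) {g : α → ι} (hg : PT g) : PT (fun a => t (g a)) :=
  PT_finCases (F := fun i _ => t i) (fun i => PT.const (t i)) hg

theorem sz_fin_bound (ι : Type) [N487b59b3 ι] [Finite ι] : ∃ c, ∀ i : ι, sz i ≤ c := by
  obtain ⟨c, hc⟩ := (Set.finite_range (fun i : ι => sz i)).bddAbove
  exact ⟨c, fun i => hc ⟨i, rfl⟩⟩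

theorem PT_unPoly (q : Polynomial ℕ) {u : α → Un} (hu : PT u) :
    PT (fun a => Un.mk (q.eval (u a).n)) := by
  induction q using Polynomial.induction_on' with
  | add p q hp hq => exact (PT.unAdd hp hq).of_eq (fun a => by simp [Un.add])
  | monomial n c =>
    have : PT (fun a => Un.mk ((u a).n ^ n)) := by
      induction n with
      | zero => exact (PT.const (Un.mk 1)).of_eq (fun a => by simp)
      | succ n ih => exact (PT.unMul ih hu).of_eq (fun a => by simp [Un.mul, pow_succ])
    exact (PT.unMul (PT.const (Un.mk c)) this).of_eq (fun a => by simp [Un.mul])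

end fin

/-- A finite family of encoded values. -/
structure Fam {K : Type} (D : K → Type) : Type where
  /-- the values -/
  get : ∀ k, D k

section fam

variable {K : Type} [Fintype K] {D : K → Type} [∀ k, N487b59b3 (D k)]

theorem fam_inj :
    Injective (fun T : Fam D => (Finset.univ.toList : List K).map fun k => toRaw (T.get k)) := by
  rintro ⟨T⟩ ⟨T'⟩ h
  have h' := List.map_inj_left.mp h
  have : T = T' := funext fun k => by
    have := h' k (by simp)
    simp only [toRaw, Raw.mk.injEq] at this
    exact bitEncode_injective this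
  rw [this]

noncomputable instance : N487b59b3 (Fam D) := encInj _ fam_inj

variable {α : Type} [N487b59b3 α]

theorem PT_fam_mk {f : ∀ k, α → D k} (hf : ∀ k, PT (f k)) :
    PT (fun a => (⟨fun k => f k a⟩ : Fam D)) := by
  have key : ∀ s : List K, PT (fun a => s.map fun k => toRaw (f k a)) := by
    intro s
    induction s with
    | nil => exact PT.const _
    | cons k s ih => exact PT.cons (PT.toRaw' (hf k)) ih
  exact (key Finset.univ.toList).of_enc (fun a => rfl)

theorem PT_fam_get {f : α → Fam D} (hf : PT f) (k : K) : PT (fun a => (f a).get k) := by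
  have key : ∀ s : List K, k ∈ s → PT (fun a => s.map fun k => toRaw ((f a).get k)) →
      PT (fun a => (f a).get k) := by
    intro s
    induction s with
    | nil => intro h; simp at h
    | cons j s ih =>
      intro h h'
      rcases List.mem_cons.mp h with rfl | h
      · exact (PT.headD h' (PT.const ⟨[]⟩)).of_enc (fun a => rfl)
      · exact ih h (PT.tail h')
  exact key Finset.univ.toList (by simp) (hf.of_enc (fun a => rfl))

theorem sz_fam_le {T T' : Fam D} {c : ℕ} (h : ∀ k, sz (T'.get k) ≤ sz (T.get k) + c) :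
    sz T' ≤ sz T + Fintype.card K * (2 * c) := by
  have key : ∀ s : List K, sz (s.map fun k => toRaw (T'.get k))
      ≤ sz (s.map fun k => toRaw (T.get k)) + s.length * (2 * c) := by
    intro s
    induction s with
    | nil => simp
    | cons j s ih =>
      have h1 : sz (toRaw (T'.get j)) ≤ sz (toRaw (T.get j)) + c := h j
      simp only [List.map_cons, sz_cons, List.length_cons, add_mul]
      omega
  have := key Finset.univ.toList
  rw [Finset.length_toList] at this
  exact this

end fam

section sim

variable {K : Type} [DecidableEq K] {Γ : K → Type} {Λ σ : Type}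

/-- The symbols that a statement may push. -/
def pushes : TM2.Stmt Γ Λ σ → Set (Σ k, Γ k)
  | .push k f q => Set.range (fun v => (⟨k, f v⟩ : Σ k, Γ k)) ∪ pushes q
  | .peek _ _ q => pushes q
  | .pop _ _ q => pushes q
  | .load _ q => pushes q
  | .branch _ p q => pushes p ∪ pushes q
  | .goto _ => ∅
  | .halt => ∅

theorem pushes_finite [Finite σ] : ∀ q : TM2.Stmt Γ Λ σ, (pushes q).Finite
  | .push _ _ q => (Set.finite_range _).union (pushes_finite q)
  | .peek _ _ q => pushes_finite q
  | .pop _ _ q => pushes_finite q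
  | .load _ q => pushes_finite q
  | .branch _ p q => (pushes_finite p).union (pushes_finite q)
  | .goto _ => Set.finite_empty
  | .halt => Set.finite_empty

/-- The symbols of stack `k` that lie in `A`. -/
abbrev Sym (A : Set (Σ k, Γ k)) (k : K) : Type := {x : Γ k // (⟨k, x⟩ : Σ k, Γ k) ∈ A}

theorem sym_finite {A : Set (Σ k, Γ k)} (hA : A.Finite) (k : K) : Finite (Sym A k) := by
  have := hA.to_subtype
  refine Finite.of_injective (fun x : Sym A k => (⟨⟨k, x.1⟩, x.2⟩ : A)) fun x y h => ?_
  simp only [Subtype.mk.injEq, Sigma.mk.injEq, heq_eq_eq, true_and] at h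
  exact Subtype.ext h

/-- The stacks described by a family of lists of symbols. -/
def stk {A : Set (Σ k, Γ k)} (T : Fam fun k => List (Sym A k)) : ∀ k, List (Γ k) :=
  fun k => (T.get k).map Subtype.val

theorem stk_update {A : Set (Σ k, Γ k)} (T : Fam fun k => List (Sym A k)) (k : K)
    (l : List (Sym A k)) :
    stk ⟨update T.get k l⟩ = update (stk T) k (l.map Subtype.val) := by
  funext j
  by_cases h : j = k
  · subst h; simp [stk]
  · simp [stk, update_of_ne h]

variable [Fintype K] [Finite σ] [Finite Λ] [N487b59b3 σ] [N487b59b3 (Option Λ)]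
  {A : Set (Σ k, Γ k)} [∀ k, Finite (Sym A k)] [∀ k, N487b59b3 (Sym A k)]

theorem PT_update {α : Type} [N487b59b3 α] {T : α → Fam fun k => List (Sym A k)} (hT : PT T)
    (k : K) {l : α → List (Sym A k)} (hl : PT l) :
    PT (fun a => (⟨update (T a).get k (l a)⟩ : Fam fun k => List (Sym A k))) := by
  refine PT_fam_mk (f := fun j a => update (T a).get k (l a) j) fun j => ?_
  by_cases h : j = k
  · subst h; exact hl.of_eq (fun a => by simp)
  · exact (PT_fam_get hT j).of_eq (fun a => by simp [update_of_ne h])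

theorem PT_peek (k : K) (f : σ → Option (Γ k) → σ) :
    PT (fun x : σ × Fam fun k => List (Sym A k) => f x.1 (stk x.2 k).head?) := by
  let _i : N487b59b3 (Option (Sym A k)) := encFin _
  have h1 : PT (fun x : σ × Fam fun k => List (Sym A k) => ((x.2.get k).map some).headD none) :=
    PT.headD (PT.map (f := fun _ y => some y) (PT_table some (PT.snd PT.id'))
      (PT_fam_get (PT.snd PT.id') k)) (PT.const _)
  refine (PT_table (fun y : σ × Option (Sym A k) => f y.1 (y.2.map Subtype.val))
    (PT.prodMk (PT.fst PT.id') h1)).of_eq (fun x => ?_)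
  unfold stk
  cases x.2.get k <;> rfl

theorem sim_stmt : ∀ q : TM2.Stmt Γ Λ σ, pushes q ⊆ A →
    ∃ (F : (σ × Fam fun k => List (Sym A k)) → Option Λ × σ × Fam fun k => List (Sym A k))
      (c : ℕ), PT F ∧ (∀ x k, sz ((F x).2.2.get k) ≤ sz (x.2.get k) + c) ∧
      ∀ x, TM2.stepAux q x.1 (stk x.2) = ⟨(F x).1, (F x).2.1, stk (F x).2.2⟩
  | .push k f q, h => by
    obtain ⟨F, c, h1, h2, h3⟩ := sim_stmt q fun y hy => h (Or.inr hy)
    obtain ⟨d, hd⟩ := sz_fin_bound (Sym A k)
    let g : σ → Sym A k := fun v => ⟨f v, h (Or.inl ⟨v, rfl⟩)⟩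
    refine ⟨fun x => F (x.1, ⟨update x.2.get k (g x.1 :: x.2.get k)⟩), c + (2 * d + 1),
      PT.comp h1 (PT.prodMk (PT.fst PT.id') (PT_update (PT.snd PT.id') k
        (PT.cons (PT_table g (PT.fst PT.id')) (PT_fam_get (PT.snd PT.id') k)))), fun x j => ?_,
      fun x => ?_⟩
    · refine (h2 _ j).trans ?_
      by_cases hj : j = k
      · subst hj
        have := hd (g x.1)
        simp only [update_self, sz_cons]; omega
      · simp only [update_of_ne hj]; omega
    · rw [← h3, stk_update]; rfl
  | .peek k f q, h => by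
    obtain ⟨F, c, h1, h2, h3⟩ := sim_stmt q h
    exact ⟨fun x => F (f x.1 (stk x.2 k).head?, x.2), c,
      PT.comp h1 (PT.prodMk (PT_peek k f) (PT.snd PT.id')), fun x j => h2 _ j,
      fun x => by rw [← h3]; rfl⟩
  | .pop k f q, h => by
    obtain ⟨F, c, h1, h2, h3⟩ := sim_stmt q h
    refine ⟨fun x => F (f x.1 (stk x.2 k).head?, ⟨update x.2.get k (x.2.get k).tail⟩), c,
      PT.comp h1 (PT.prodMk (PT_peek k f) (PT_update (PT.snd PT.id') k
        (PT.tail (PT_fam_get (PT.snd PT.id') k)))), fun x j => ?_, fun x => ?_⟩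
    · refine (h2 _ j).trans ?_
      by_cases hj : j = k
      · subst hj
        have := sz_tail_le (x.2.get j)
        simp only [update_self]; omega
      · simp only [update_of_ne hj]; omega
    · rw [← h3, stk_update, List.map_tail]; rfl
  | .load f q, h => by
    obtain ⟨F, c, h1, h2, h3⟩ := sim_stmt q h
    exact ⟨fun x => F (f x.1, x.2), c,
      PT.comp h1 (PT.prodMk (PT_table f (PT.fst PT.id')) (PT.snd PT.id')), fun x j => h2 _ j,
      fun x => by rw [← h3]; rfl⟩
  | .branch f p q, h => by
    obtain ⟨F, c, h1, h2, h3⟩ := sim_stmt p fun y hy => h (Or.inl hy)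
    obtain ⟨G, d, g1, g2, g3⟩ := sim_stmt q fun y hy => h (Or.inr hy)
    refine ⟨fun x => cond (f x.1) (F x) (G x), c + d,
      PT.cond' (PT_table f (PT.fst PT.id')) h1 g1, fun x j => ?_, fun x => ?_⟩
    · have := h2 x j
      have := g2 x j
      beta_reduce
      cases f x.1 <;> simp only [cond_true, cond_false] <;> omega
    · rw [TM2.stepAux, h3, g3]
      beta_reduce
      cases f x.1 <;> rfl
  | .goto f, _ =>
    ⟨fun x => (some (f x.1), x), 0,
      PT.prodMk (PT_table (fun v => some (f v)) (PT.fst PT.id')) PT.id', fun _ _ => le_rfl,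
      fun _ => rfl⟩
  | .halt, _ => ⟨fun x => (none, x), 0, PT.prodMk (PT.const _) PT.id', fun _ _ => le_rfl,
      fun _ => rfl⟩

theorem sim_step (M : Λ → TM2.Stmt Γ Λ σ) (hM : ∀ l, pushes (M l) ⊆ A) :
    ∃ (G : (Option Λ × σ × Fam fun k => List (Sym A k)) →
      Option Λ × σ × Fam fun k => List (Sym A k)) (c : ℕ), PT G ∧ (∀ x, sz (G x) ≤ sz x + c) ∧
      ∀ (n : ℕ) x (d : TM2.Cfg Γ Λ σ), d.l = none →
        (flip bind (TM2.step M))^[n] (some ⟨x.1, x.2.1, stk x.2.2⟩) = some d →
        ∀ m, n ≤ m → stk (G^[m] x).2.2 = d.stk := by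
  choose F c h1 h2 h3 using fun l => sim_stmt (M l) (hM l)
  obtain ⟨c₀, hc₀⟩ := (Set.finite_range c).bddAbove
  obtain ⟨c₁, hc₁⟩ := sz_fin_bound (Option Λ)
  obtain ⟨c₂, hc₂⟩ := sz_fin_bound σ
  let H : Option Λ → (Option Λ × σ × Fam fun k => List (Sym A k)) →
      Option Λ × σ × Fam fun k => List (Sym A k) := fun o x => o.elim x fun l => F l x.2
  refine ⟨fun x => H x.1 x, 2 * c₁ + 2 * c₂ + Fintype.card K * (2 * c₀),
    PT_finCases (fun o => ?_) (PT.fst PT.id'), ?_, ?_⟩
  · cases o with
    | none => exact PT.id'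
    | some l => exact PT.comp (h1 l) (PT.snd PT.id')
  · rintro ⟨o, v, T⟩
    cases o with
    | none => exact Nat.le_add_right _ _
    | some l =>
      have a1 : sz (F l (v, T)).2.2 ≤ sz T + Fintype.card K * (2 * c₀) :=
        sz_fam_le fun k => (h2 l (v, T) k).trans (Nat.add_le_add_left (hc₀ ⟨l, rfl⟩) _)
      have a2 := hc₁ (F l (v, T)).1
      have a3 := hc₂ (F l (v, T)).2.1
      have a4 : sz (F l (v, T))
          = 2 * sz (F l (v, T)).1 + 1 + (2 * sz (F l (v, T)).2.1 + 1 + sz (F l (v, T)).2.2) := by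
        rw [← sz_pair, ← sz_pair]
      show sz (F l (v, T)) ≤ _
      rw [a4, sz_pair, sz_pair]
      omega
  · intro n
    induction n with
    | zero =>
      rintro ⟨o, v, T⟩ d hd h m -
      simp only [iterate_zero, id_eq, Option.some.injEq] at h
      subst h
      simp only at hd
      subst hd
      rw [Function.iterate_fixed rfl]
    | succ n ih =>
      rintro ⟨o, v, T⟩ d hd h m hm
      rw [Function.iterate_succ_apply] at h
      cases o with
      | none =>
        have : (flip bind (TM2.step M))^[n] none = none := Function.iterate_fixed rfl n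
        exact absurd (this.symm.trans h) (by simp)
      | some l =>
        obtain ⟨m, rfl⟩ : ∃ m', m = m' + 1 := ⟨m - 1, by omega⟩
        rw [Function.iterate_succ_apply]
        refine ih (F l (v, T)) d hd ?_ m (by omega)
        rw [← h3]
        exact h

end sim

theorem PT_of_isPolyTime {α β : Type} [N487b59b3 α] [N487b59b3 β] {f : α → β}
    (h : N68a2faeb.IsPolyTime f) : PT f := by
  obtain ⟨⟨⟨tm, e₀, e₁⟩, q, hq⟩⟩ := h
  let _i := tm.kFin
  let _i := tm.ΛFin
  let _i := tm.σFin
  let A : Set (Σ k, tm.Γ k) :=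
    (⋃ l, pushes (tm.m l)) ∪ Set.range fun b => (⟨tm.k₀, e₀.symm b⟩ : Σ k, tm.Γ k)
  have hA : A.Finite := (Set.finite_iUnion fun l => pushes_finite _).union (Set.finite_range _)
  have _j : ∀ k, Finite (Sym A k) := sym_finite hA
  let _i : ∀ k, N487b59b3 (Sym A k) := fun k => encFin _
  let _i : N487b59b3 tm.σ := encFin _
  let _i : N487b59b3 (Option tm.Λ) := encFin _
  obtain ⟨G, c, h1, h2, h3⟩ := sim_step (A := A) tm.m
    fun l => (Set.subset_iUnion (fun l => pushes (tm.m l)) l).trans Set.subset_union_left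
  let g : Bool → Sym A tm.k₀ := fun b => ⟨e₀.symm b, Or.inr ⟨b, rfl⟩⟩
  let T₀ : Fam fun k => List (Sym A k) := ⟨fun _ => []⟩
  let x₀ : α → Option tm.Λ × tm.σ × Fam fun k => List (Sym A k) := fun a =>
    (some tm.main, tm.initialState, ⟨update T₀.get tm.k₀ ((toRaw a).s.map g)⟩)
  have hx₀ : PT x₀ := PT.prodMk (PT.const _) (PT.prodMk (PT.const _)
    (PT_update (PT.const T₀) tm.k₀ (PT.map (f := fun _ b => g b) (PT_table g (PT.snd PT.id'))
      (PT.rawBits (PT.toRaw' PT.id')))))
  have h4 := PT.iterA (g := fun _ : α => G) (h := x₀) (c := fun a => Un.mk (q.eval (usz a).n))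
    (PT.comp h1 (PT.snd PT.id')) hx₀ (PT_unPoly q (PT.usz' PT.id')) (PB.const c) fun _ b => h2 b
  have h5 := PT.rawMk (PT.map (f := fun _ (y : Sym A tm.k₁) => e₁ y.1)
    (PT_table (fun y : Sym A tm.k₁ => e₁ y.1) (PT.snd PT.id'))
    (PT_fam_get (PT.snd (PT.snd h4)) tm.k₁))
  refine h5.of_enc fun a => ?_
  have hi : initList tm (List.map e₀.invFun (bitEncode a))
      = ⟨(x₀ a).1, (x₀ a).2.1, stk (x₀ a).2.2⟩ := by
    have : (initList tm (List.map e₀.invFun (bitEncode a))).stk = stk (x₀ a).2.2 := by
      funext k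
      simp only [x₀, stk_update]
      by_cases hk : k = tm.k₀
      · subst hk
        simp [initList, g, toRaw, Function.comp_def]
      · simp [initList, hk, stk, T₀]
    rw [← this]; rfl
  have h6 := h3 (hq a).steps (x₀ a) (haltList tm (List.map e₁.invFun (bitEncode (f a)))) rfl
    (by rw [← hi]; exact (hq a).evals_in_steps) (sz (Un.mk (q.eval (usz a).n)))
    (by rw [sz_un]; exact (hq a).steps_le_m)
  have h7 := congrFun h6 tm.k₁
  have h8 : (haltList tm (List.map e₁.invFun (bitEncode (f a)))).stk tm.k₁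
      = List.map e₁.invFun (bitEncode (f a)) := by simp [haltList]
  rw [h8] at h7
  have h9 := congrArg (List.map e₁) h7
  simp only [stk, List.map_map, Function.comp_def, Equiv.invFun_as_coe, Equiv.apply_symm_apply,
    List.map_id'] at h9
  exact h9

theorem manyOne_trans {A B C : N68a2faeb.DecisionProblem} (h₁ : N793a5b8e.ManyOneReducible A B)
    (h₂ : N793a5b8e.ManyOneReducible B C) : N793a5b8e.ManyOneReducible A C := by
  obtain ⟨f, hf, hf'⟩ := h₁
  obtain ⟨g, hg, hg'⟩ := h₂
  exact ⟨fun x => g (f x), (PT.comp (PT_of_isPolyTime hg) (PT_of_isPolyTime hf)).isPolyTime,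
    fun x => (hf' x).trans (hg' _)⟩

end Pool.Agent.Lib.MP_73cdf8_lc
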