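import Pool.Agent.Lib.MP_73cdf8_lc.Encode

/-! From a solution of the quadratic system to a cut sequence. -/

set_option autoImplicit false

noncomputable section

namespace Pool.Agent.Lib.MP_73cdf8_lc

open Finset Polynomial Pool.Agent.Lib.MP_acf5a6_lc Complex
open scoped Real ComplexConjugate

lemma aeval_reflect_circle (U : ℝ[X]) {σ : ℕ} (hU : U.natDegree ≤ σ) (θ : ℝ) :
    aeval (cexp (θ * I)) (reflect σ U) = cexp (θ * I) ^ σ * conj (aeval (cexp (θ * I)) U) := by
  have hz : cexp (θ * I) ≠ 0 := Complex.exp_ne_zero _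
  have hc : conj (cexp (θ * I)) = (cexp (θ * I))⁻¹ := by
    rw [← Complex.exp_conj, ← Complex.exp_neg]; simp
  let _ : Invertible (cexp (θ * I))⁻¹ := invertibleOfNonzero (inv_ne_zero hz)
  have := eval₂_reflect_mul_pow (algebraMap ℝ ℂ) (cexp (θ * I))⁻¹ σ U hU
  rw [invOf_eq_inv, inv_inv, ← aeval_def, ← aeval_def] at this
  rw [← aeval_conj, hc, ← this, inv_pow]
  field_simp

lemma quadf_dvd {P : ℝ[X]} {θ : ℝ} (h0 : 0 < θ) (h1 : θ < π) (h : aeval (cexp (θ * I)) P = 0) :
    quadf (Real.cos θ) ∣ P := by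
  have := P.quadratic_dvd_of_aeval_eq_zero_im_ne_zero h (by
    rw [Complex.exp_ofReal_mul_I_im]; exact (Real.sin_pos_of_pos_of_lt_pi h0 h1).ne')
  rwa [Complex.exp_ofReal_mul_I_re, Complex.norm_exp_ofReal_mul_I, one_pow, C_1] at this

lemma quadf_coprime {c d : ℝ} (h : c ≠ d) : IsCoprime (quadf c) (quadf d) := by
  have hne : 2 * (d - c) ≠ 0 := mul_ne_zero two_ne_zero (sub_ne_zero.mpr h.symm)
  have h1 : (C (2 * (d - c))⁻¹ : ℝ[X]) * (C (2 * d) - C (2 * c)) = 1 := by
    rw [← C_sub, ← C_mul, ← mul_sub, inv_mul_cancel₀ hne, C_1]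
  refine ⟨1 - C (2 * (d - c))⁻¹ * (X - C (2 * c)), C (2 * (d - c))⁻¹ * (X - C (2 * c)), ?_⟩
  unfold quadf
  linear_combination (-(X - C (2 * c)) * X) * h1

lemma exists_angle (v : ℝ → ℂ) (hv : Continuous v) (hb : ∀ θ, ‖v θ‖ ≤ 1 / 2) {R : ℕ} (hR : 0 < R)
    (j : ℕ) : ∃ θ : ℝ, (2 * j - 1) * π / (4 * R) < θ ∧ θ < (2 * j + 1) * π / (4 * R) ∧
      ((-I) ^ j * (cexp (θ * I) ^ R + v θ)).im = 0 := by
  have hR' : (0 : ℝ) < R := by exact_mod_cast hR
  have e1 : ∀ θ : ℝ, ((-I) ^ j * cexp (θ * I) ^ R).im = Real.sin (R * θ - j * (π / 2)) := by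
    intro θ
    have : (-I) = cexp (((-(π / 2) : ℝ) : ℂ) * I) := by
      rw [Complex.exp_mul_I]; push_cast; simp
    rw [this, ← Complex.exp_nat_mul, ← Complex.exp_nat_mul, ← Complex.exp_add,
      ← Complex.exp_ofReal_mul_I_im]
    congr 2
    push_cast; ring
  have e2 : ∀ θ : ℝ, |((-I) ^ j * v θ).im| ≤ 1 / 2 := by
    intro θ
    refine (Complex.abs_im_le_norm _).trans ?_
    rw [norm_mul, norm_pow, norm_neg, Complex.norm_I, one_pow, one_mul]
    exact hb θ
  have hs : (1 / 2 : ℝ) < √2 / 2 := by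
    have : (1 : ℝ) < √2 := by rw [Real.lt_sqrt (by norm_num)]; norm_num
    linarith
  have hc : Continuous fun θ : ℝ => ((-I) ^ j * (cexp (θ * I) ^ R + v θ)).im := by fun_prop
  have hlt : (2 * j - 1) * π / (4 * R) ≤ (2 * j + 1) * π / (4 * R) := by
    gcongr; linarith
  have := intermediate_value_Ioo hlt hc.continuousOn
  obtain ⟨θ, hθ, h0⟩ := this (a := 0) (by
    constructor
    · show ((-I) ^ j * (_ + _)).im < 0
      rw [mul_add, add_im, e1]
      have : R * ((2 * j - 1) * π / (4 * R)) - j * (π / 2) = -(π / 4) := by field_simp; ring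
      rw [this, Real.sin_neg, Real.sin_pi_div_four]
      linarith [abs_le.mp (e2 ((2 * j - 1) * π / (4 * R)))]
    · show 0 < ((-I) ^ j * (_ + _)).im
      rw [mul_add, add_im, e1]
      have : R * ((2 * j + 1) * π / (4 * R)) - j * (π / 2) = π / 4 := by field_simp; ring
      rw [this, Real.sin_pi_div_four]
      linarith [abs_le.mp (e2 ((2 * j + 1) * π / (4 * R)))])
  exact ⟨θ, hθ.1, hθ.2, h0⟩

lemma exists_cuts (U : ℝ[X]) {L β r : ℕ} (hr : r + 1 = β + L) (hβ : L < β)
    (hU : U.natDegree ≤ L + L)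
    (hb : ∀ θ : ℝ, ‖aeval (cexp (θ * I)) U‖ ≤ 1 / 2) :
    ∃ θ : ℕ → ℝ, (∀ j, 1 ≤ j → j ≤ 2 * r + 1 → 0 < θ j ∧ θ j < π) ∧ (∀ j, θ j < θ (j + 1)) ∧
      polN r (fun j => Real.cos (θ j))
        = (1 + X ^ β * reflect (L + L) U) + (X ^ β * U + X ^ (2 * r + 2)) ∧
      polD r (fun j => Real.cos (θ j))
        = (1 + X ^ β * reflect (L + L) U) - (X ^ β * U + X ^ (2 * r + 2)) := by
  have hz : ∀ θ : ℝ, cexp (θ * I) ≠ 0 := fun θ => Complex.exp_ne_zero _
  set v : ℝ → ℂ := fun θ => (cexp (θ * I))⁻¹ ^ L * aeval (cexp (θ * I)) U with hv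
  have hvc : Continuous v := by
    refine Continuous.mul (Continuous.pow (Continuous.inv₀ (by fun_prop) hz) _) ?_
    exact (U.continuous_aeval).comp (by fun_prop)
  have hvb : ∀ θ, ‖v θ‖ ≤ 1 / 2 := fun θ => by
    simp only [hv, norm_mul, norm_pow, norm_inv, Complex.norm_exp_ofReal_mul_I, inv_one, one_pow,
      one_mul]
    exact hb θ
  choose θ h1 h2 h3 using exists_angle v hvc hvb (Nat.succ_pos r)
  have hR : (0 : ℝ) < 4 * ((r + 1 : ℕ) : ℝ) := by positivity
  have hrange : ∀ j, 1 ≤ j → j ≤ 2 * r + 1 → 0 < θ j ∧ θ j < π := by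
    intro j a1 a2
    have b1 : (1 : ℝ) ≤ j := by exact_mod_cast a1
    have b2 : (j : ℝ) ≤ 2 * r + 1 := by exact_mod_cast a2
    refine ⟨lt_trans (div_pos (mul_pos (by linarith) Real.pi_pos) hR) (h1 j),
      lt_of_lt_of_le (h2 j) ?_⟩
    rw [div_le_iff₀ hR]
    push_cast
    nlinarith [Real.pi_pos]
  have hmono : ∀ j, θ j < θ (j + 1) := by
    intro j
    refine lt_trans (h2 j) (lt_of_eq_of_lt ?_ (h1 (j + 1)))
    push_cast; ring
  have hsm : StrictMono θ := strictMono_nat_of_lt_succ hmono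
  have hcos : ∀ i j, 1 ≤ i → i ≤ 2 * r + 1 → 1 ≤ j → j ≤ 2 * r + 1 → i ≠ j →
      Real.cos (θ i) ≠ Real.cos (θ j) := by
    intro i j a1 a2 a3 a4 hne heq
    obtain ⟨b1, b2⟩ := hrange i a1 a2
    obtain ⟨b3, b4⟩ := hrange j a3 a4
    exact hne (hsm.injective (Real.injOn_cos ⟨b1.le, b2.le⟩ ⟨b3.le, b4.le⟩ heq))
  have hconj : ∀ t : ℝ, conj (cexp (t * I)) = (cexp (t * I))⁻¹ := fun t => by
    rw [← Complex.exp_conj, ← Complex.exp_neg]; simp
  have evA : ∀ t : ℝ, aeval (cexp (t * I)) (1 + X ^ β * reflect (L + L) U : ℝ[X])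
      = cexp (t * I) ^ (r + 1) * conj (cexp (t * I) ^ (r + 1) + v t) := by
    intro t
    have := hz t
    simp only [map_add, map_one, map_mul, map_pow, aeval_X, aeval_reflect_circle U hU, hv,
      map_inv₀, hconj, inv_inv, hr, inv_pow]
    field_simp
    ring
  have evS : ∀ t : ℝ, aeval (cexp (t * I)) (X ^ β * U + X ^ (2 * r + 2) : ℝ[X])
      = cexp (t * I) ^ (r + 1) * (cexp (t * I) ^ (r + 1) + v t) := by
    intro t
    have := hz t
    have e : 2 * r + 2 = (β + L) + (β + L) := by omega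
    simp only [map_add, map_mul, map_pow, aeval_X, hv, hr, e, inv_pow]
    field_simp
    ring
  have hlow : (1 + X ^ β * reflect (L + L) U : ℝ[X]).natDegree < 2 * r + 2 ∧
      (X ^ β * U : ℝ[X]).natDegree < 2 * r + 2 := by
    have a1 : (X ^ β * reflect (L + L) U : ℝ[X]).natDegree ≤ β + (L + L) :=
      natDegree_mul_le.trans (add_le_add (by simp) (natDegree_reflect_le' hU))
    have a2 : (X ^ β * U : ℝ[X]).natDegree ≤ β + (L + L) :=
      natDegree_mul_le.trans (add_le_add (by simp) hU)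
    exact ⟨lt_of_le_of_lt (natDegree_add_le _ _) (max_lt (by simp) (by omega)), by omega⟩
  have hmon : ∀ P : ℝ[X], P.natDegree < 2 * r + 2 → (X ^ (2 * r + 2) + P).Monic ∧
      (X ^ (2 * r + 2) + P).natDegree = 2 * r + 2 := by
    intro P hP
    refine ⟨monic_X_pow_add (degree_le_natDegree.trans_lt (by exact_mod_cast hP)), ?_⟩
    rw [natDegree_add_eq_left_of_natDegree_lt (by simpa using hP), natDegree_X_pow]
  refine ⟨θ, hrange, hmono, ?_, ?_⟩
  · obtain ⟨m1, m2⟩ := hmon ((1 + X ^ β * reflect (L + L) U) + X ^ β * U)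
      (lt_of_le_of_lt (natDegree_add_le _ _) (max_lt hlow.1 hlow.2))
    have e : (1 + X ^ β * reflect (L + L) U) + (X ^ β * U + X ^ (2 * r + 2))
        = X ^ (2 * r + 2) + ((1 + X ^ β * reflect (L + L) U) + X ^ β * U) := by ring
    obtain ⟨p1, p2, -, -⟩ := prod_quadf (r + 1) fun j => Real.cos (θ (2 * j + 1))
    symm
    refine eq_of_monic_of_dvd_of_natDegree_le p2 (e ▸ m1) ?_ (by rw [e, m2, polN, p1]; omega)
    refine Finset.prod_dvd_of_coprime (fun i hi j hj hne => quadf_coprime ?_) fun j hj => ?_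
    · have := mem_range.mp (mem_coe.mp hi)
      have := mem_range.mp (mem_coe.mp hj)
      exact hcos _ _ (by omega) (by omega) (by omega) (by omega) (by omega)
    · have := mem_range.mp hj
      obtain ⟨b1, b2⟩ := hrange (2 * j + 1) (by omega) (by omega)
      refine quadf_dvd b1 b2 ?_
      rw [map_add, evA, evS, ← mul_add, add_comm (conj _), Complex.add_conj]
      have := h3 (2 * j + 1)
      rw [pow_succ, pow_mul, neg_sq, I_sq, mul_assoc] at this
      rcases neg_one_pow_eq_or ℂ j with h | h <;> rw [h] at this <;>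
        simp only [one_mul, neg_mul, neg_neg, neg_im, I_mul_im, neg_eq_zero] at this <;>
        simp only [Nat.succ_eq_add_one] at this <;> rw [this] <;> simp
  · obtain ⟨m1, m2⟩ := hmon (X ^ β * U - (1 + X ^ β * reflect (L + L) U))
      (lt_of_le_of_lt (natDegree_sub_le _ _) (max_lt hlow.2 hlow.1))
    have e : -((1 + X ^ β * reflect (L + L) U) - (X ^ β * U + X ^ (2 * r + 2)))
        = X ^ (2 * r + 2) + (X ^ β * U - (1 + X ^ β * reflect (L + L) U)) := by ring
    obtain ⟨p1, p2, -, -⟩ := prod_quadf r fun j => Real.cos (θ (2 * j + 2))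
    have q1 : (X ^ 2 - 1 : ℝ[X]).Monic := by monicity!
    have q2 : (X ^ 2 - 1 : ℝ[X]).natDegree = 2 := by compute_degree!
    have e2 : polD r (fun j => Real.cos (θ j))
        = -((X ^ 2 - 1) * ∏ j ∈ range r, quadf (Real.cos (θ (2 * j + 2)))) := by
      unfold polD; ring
    rw [e2, neg_eq_iff_eq_neg]
    symm
    refine eq_of_monic_of_dvd_of_natDegree_le (q1.mul p2) (e ▸ m1) ?_
      (by rw [e, m2, q1.natDegree_mul p2, p1, q2]; omega)
    rw [dvd_neg]
    have evD : ∀ t : ℝ, (cexp (t * I) ^ (r + 1) + v t).im = 0 → aeval (cexp (t * I))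
        ((1 + X ^ β * reflect (L + L) U) - (X ^ β * U + X ^ (2 * r + 2)) : ℝ[X]) = 0 := by
      intro t ht
      rw [map_sub, evA, evS, Complex.conj_eq_iff_im.mpr ht, sub_self]
    refine IsCoprime.mul_dvd (IsCoprime.prod_right fun j hj => ?_) ?_ ?_
    · have := mem_range.mp hj
      obtain ⟨b1, b2⟩ := hrange (2 * j + 2) (by omega) (by omega)
      have c1 : (1 : ℝ) ≠ Real.cos (θ (2 * j + 2)) := fun h => by
        rw [← Real.cos_zero] at h
        exact b1.ne (Real.injOn_cos ⟨le_rfl, Real.pi_pos.le⟩ ⟨b1.le, b2.le⟩ h)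
      have c2 : (-1 : ℝ) ≠ Real.cos (θ (2 * j + 2)) := fun h => by
        rw [← Real.cos_pi] at h
        exact b2.ne' (Real.injOn_cos ⟨Real.pi_pos.le, le_rfl⟩ ⟨b1.le, b2.le⟩ h)
      have := (quadf_coprime c1).mul_left (quadf_coprime c2)
      have e3 : quadf 1 * quadf (-1) = (X ^ 2 - 1) * (X ^ 2 - 1) := by
        simp only [quadf, mul_one, mul_neg, C_neg, map_ofNat]; ring
      rw [e3] at this
      exact this.of_mul_left_left
    · have e4 : (X ^ 2 - 1 : ℝ[X]) = (X - C 1) * (X - C (-1)) := by simp; ring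
      have real_root : ∀ (t x : ℝ), cexp (t * I) = x → (X - C x) ∣
          ((1 + X ^ β * reflect (L + L) U) - (X ^ β * U + X ^ (2 * r + 2)) : ℝ[X]) := by
        intro t x hx
        rw [dvd_iff_isRoot, IsRoot.def]
        have := evD t (by
          simp only [hv, hx]
          rw [← Complex.coe_algebraMap, aeval_algebraMap_apply]
          simp only [Complex.coe_algebraMap]
          norm_cast)
        rw [hx, ← Complex.coe_algebraMap, aeval_algebraMap_apply, coe_aeval_eq_eval] at this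
        exact (map_eq_zero _).mp this
      rw [e4]
      refine IsCoprime.mul_dvd (isCoprime_X_sub_C_of_isUnit_sub (by norm_num)) ?_ ?_
      · exact real_root 0 1 (by simp)
      · exact real_root π (-1) (by simp)
    · refine Finset.prod_dvd_of_coprime (fun i hi j hj hne => quadf_coprime ?_) fun j hj => ?_
      · have := mem_range.mp (mem_coe.mp hi)
        have := mem_range.mp (mem_coe.mp hj)
        exact hcos _ _ (by omega) (by omega) (by omega) (by omega) (by omega)
      · have := mem_range.mp hj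
        obtain ⟨b1, b2⟩ := hrange (2 * j + 2) (by omega) (by omega)
        refine quadf_dvd b1 b2 (evD _ ?_)
        have := h3 (2 * j + 2)
        rw [show 2 * j + 2 = 2 * (j + 1) by ring, pow_mul, neg_sq, I_sq] at this
        rw [show 2 * j + 2 = 2 * (j + 1) by ring]
        rcases neg_one_pow_eq_or ℂ (j + 1) with h | h <;> rw [h] at this <;>
          simpa only [one_mul, neg_mul, neg_im, neg_eq_zero, Nat.succ_eq_add_one] using this

theorem complete {n : ℕ} {E : List QF} (hE : Bdd n E) (h : Proj n E) :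
    ∃ θ : ℕ → ℝ, (∀ j, 1 ≤ j → j ≤ 2 * (9 * LL n) + 1 → 0 < θ j ∧ θ j < π) ∧
      (∀ j, θ j < θ (j + 1)) ∧ Cond n E (bb (9 * LL n) fun j => Real.cos (θ j)) := by
  obtain ⟨w, ⟨i0, hi0, hw0⟩, hw⟩ := h
  have hS : 0 < ∑ i ∈ range n, w i ^ 2 :=
    Finset.sum_pos' (fun i _ => sq_nonneg _) ⟨i0, mem_range.mpr hi0, by positivity⟩
  have hn : (0 : ℝ) < 16 * n + 2 := by positivity
  set t : ℝ := √(((16 * n + 2) * ∑ i ∈ range n, w i ^ 2)⁻¹) with ht
  have ht2 : t ^ 2 = ((16 * n + 2) * ∑ i ∈ range n, w i ^ 2)⁻¹ := Real.sq_sqrt (by positivity)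
  set a : ℕ → ℝ := fun i => t * w i with ha
  have ha2 : (16 * n + 2) * ∑ i ∈ range n, a i ^ 2 = 1 := by
    simp only [ha, mul_pow, ← Finset.mul_sum, ht2]
    field_simp
  have ha1 : ∑ i ∈ range n, |a i| ≤ 1 / 4 := by
    have h1 := sq_sum_le_card_mul_sum_sq (s := range n) (f := fun i => |a i|)
    simp only [card_range, sq_abs] at h1
    have h2 : 0 ≤ ∑ i ∈ range n, a i ^ 2 := Finset.sum_nonneg fun i _ => sq_nonneg _
    have h3 : (∑ i ∈ range n, |a i|) ^ 2 ≤ (1 / 4) ^ 2 := by nlinarith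
    exact abs_le_of_sq_le_sq' h3 (by norm_num) |>.2
  have hb : ∀ θ : ℝ, ‖aeval (cexp (θ * I)) (polU n a)‖ ≤ 1 / 2 := by
    intro θ
    rw [polU, map_sum]
    refine (norm_sum_le _ _).trans ?_
    have : ∀ i ∈ range n, ‖aeval (cexp (θ * I)) (C (a i) * (X ^ i + X ^ (LL n + n * i)) : ℝ[X])‖
        ≤ 2 * |a i| := by
      intro i _
      simp only [map_mul, map_add, map_pow, aeval_X, aeval_C, norm_mul, Complex.coe_algebraMap,
        Complex.norm_real, Real.norm_eq_abs]
      rw [mul_comm]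
      refine mul_le_mul_of_nonneg_right ((norm_add_le _ _).trans ?_) (abs_nonneg _)
      simp only [norm_pow, Complex.norm_exp_ofReal_mul_I, one_pow]
      norm_num
    refine (Finset.sum_le_sum this).trans ?_
    rw [← Finset.mul_sum]
    linarith
  have hbe : be n = 8 * LL n + 1 := rfl
  obtain ⟨θ, t1, t2, hN, hD⟩ := exists_cuts (polU n a) (L := LL n) (β := be n) (r := 9 * LL n)
    (by omega) (by omega) (polU_natDegree n a) hb
  refine ⟨θ, t1, t2, ?_⟩
  set U := polU n a with hU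
  set W := polW (LL n + LL n) U with hW
  set b := bb (9 * LL n) fun j => Real.cos (θ j) with hb'
  have hbpos : 0 < be n := Nat.succ_pos _
  obtain ⟨-, k2⟩ := main_dvd (9 * LL n) _ _ _ hN hD
    (by rw [coeff_add, coeff_X_pow_mul', if_neg (by omega)]; simp)
    (by rw [coeff_add, coeff_X_pow_mul', if_neg (by omega)]; simp) hbpos
    (Or.inr (dvd_add (dvd_mul_right _ _) (pow_dvd_pow _ (by omega))))
  have k3 : X ^ (3 * be n) ∣ (1 + X ^ be n * reflect (LL n + LL n) U)
      * (X ^ be n * U + X ^ (2 * be n) * W) - (X ^ be n * U + X ^ (2 * (9 * LL n) + 2)) := by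
    refine ⟨reflect (LL n + LL n) U * W, ?_⟩
    have e : 2 * (9 * LL n) + 2 = 2 * be n + (LL n + LL n) := by omega
    rw [e, hW, polW]
    ring
  rw [← dvd_coe_iff] at k3
  have k4 : (PowerSeries.X : PowerSeries ℝ) ^ (3 * be n) ∣ PowerSeries.mk b
      - ((X ^ be n * U + X ^ (2 * be n) * W : ℝ[X]) : PowerSeries ℝ) := by
    have hu : IsUnit ((1 + X ^ be n * reflect (LL n + LL n) U : ℝ[X]) : PowerSeries ℝ) := by
      rw [PowerSeries.isUnit_iff_constantCoeff, Polynomial.constantCoeff_coe, coeff_add,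
        coeff_X_pow_mul', if_neg (by omega)]
      simp
    rw [← hu.dvd_mul_left]
    have := dvd_sub k2 k3
    rw [Polynomial.coe_sub, Polynomial.coe_mul, sub_sub_sub_cancel_right, ← mul_sub] at this
    exact this
  have hcoef : ∀ m < 3 * be n, b m = (X ^ be n * U + X ^ (2 * be n) * W).coeff m := by
    intro m hm
    have := PowerSeries.X_pow_dvd_iff.mp k4 m hm
    rwa [map_sub, PowerSeries.coeff_mk, Polynomial.coeff_coe, sub_eq_zero] at this
  have hUd : U.natDegree ≤ LL n + LL n := polU_natDegree n a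
  have c1 : ∀ e < be n, b (be n + e) = U.coeff e := by
    intro e he
    rw [hcoef _ (by omega), coeff_add, coeff_X_pow_mul', coeff_X_pow_mul', if_pos (by omega),
      if_neg (by omega), add_zero, Nat.add_sub_cancel_left]
  have c2 : ∀ e < be n, b (2 * be n + e) = W.coeff e := by
    intro e he
    rw [hcoef _ (by omega), coeff_add, coeff_X_pow_mul', coeff_X_pow_mul', if_pos (by omega),
      if_pos (by omega), coeff_eq_zero_of_natDegree_lt (by omega), zero_add,
      Nat.add_sub_cancel_left]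
  have c3 : ∀ i < n, ∀ j < n, b (pos n i j) = -(a i * a j) := by
    intro i hi j hj
    have := pos_bound (i := i) hj
    rw [pos, c2 _ (by omega), coeff_polW_pos a hi hj]
  refine ⟨fun m hm => ?_, fun e he => ?_, fun e he => ?_, fun q hq => ?_, ?_⟩
  · rw [hcoef m (by omega), coeff_add, coeff_X_pow_mul', coeff_X_pow_mul', if_neg (by omega),
      if_neg (by omega), add_zero]
  · rw [c1 e he, coeff_polU]
    refine Finset.sum_congr rfl fun i hi => ?_
    have := mem_range.mp hi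
    have hL : LL n = n * n + n := rfl
    rw [c1 i (by omega), coeff_polU_lt a this]
  · rw [c2 e he]
    split_ifs with h4
    · rw [c2 _ (by omega)]
      conv_lhs => rw [hW, ← polW_reflect hUd, coeff_reflect, revAt_le (by omega)]
      congr 1; omega
    · exact coeff_eq_zero_of_natDegree_lt (lt_of_le_of_lt (polW_natDegree hUd) (by omega))
  · rw [list_sum_congr (g := fun s => -(t * t) * ((s.1 : ℝ) * w s.2.1 * w s.2.2)) (fun s hs => by
      rw [c3 _ (hE q hq s hs).1 _ (hE q hq s hs).2]; simp only [ha]; ring), List.sum_map_mul_left]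
    have := hw q hq
    unfold ev at this
    rw [this, mul_zero]
  · rw [c2 _ (by omega), coeff_polW_mid,
      Finset.sum_congr rfl fun i hi => c3 i (mem_range.mp hi) i (mem_range.mp hi)]
    simp only [← sq, Finset.sum_neg_distrib]
    linarith

end Pool.Agent.Lib.MP_73cdf8_lc
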