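import Mathlib
import Pool.Prelude.Def_F_458e953d

/-!
The existential theory of the reals and the polynomial version of Consensus Halving as languages
of bit strings.
-/

set_option autoImplicit false

namespace Pool.Agent.Lib.MP_73cdf8_lc

/-- Polynomial terms with integer coefficients in the variables `y₀, y₁, …`. -/
inductive PTerm : Type
  | var : ℕ → PTerm
  | const : ℤ → PTerm
  | add : PTerm → PTerm → PTerm
  | mul : PTerm → PTerm → PTerm

/-- Quantifier-free Boolean combinations of polynomial equations and inequalities. -/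
inductive QFree : Type
  | eq : PTerm → PTerm → QFree
  | lt : PTerm → PTerm → QFree
  | le : PTerm → PTerm → QFree
  | not : QFree → QFree
  | and : QFree → QFree → QFree
  | or : QFree → QFree → QFree

/-- The real value of a term at a point. -/
def valueAt (y : ℕ → ℝ) : PTerm → ℝ
  | .var k => y k
  | .const c => (c : ℝ)
  | .add s t => valueAt y s + valueAt y t
  | .mul s t => valueAt y s * valueAt y t

/-- Truth of a formula at a point. -/
def TrueAt (y : ℕ → ℝ) : QFree → Prop
  | .eq s t => valueAt y s = valueAt y t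
  | .lt s t => valueAt y s < valueAt y t
  | .le s t => valueAt y s ≤ valueAt y t
  | .not φ => ¬ TrueAt y φ
  | .and φ ψ => TrueAt y φ ∧ TrueAt y ψ
  | .or φ ψ => TrueAt y φ ∨ TrueAt y ψ

/-- A term in reverse Polish form, as a list of symbols `(kind, number)`. -/
def codeT : PTerm → List (ℕ × ℤ)
  | .var k => [(0, (k : ℤ))]
  | .const c => [(1, c)]
  | .add s t => codeT s ++ codeT t ++ [(2, 0)]
  | .mul s t => codeT s ++ codeT t ++ [(3, 0)]

/-- A formula in reverse Polish form, as a list of symbols `(kind, number)`. -/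
def codeF : QFree → List (ℕ × ℤ)
  | .eq s t => codeT s ++ codeT t ++ [(4, 0)]
  | .lt s t => codeT s ++ codeT t ++ [(5, 0)]
  | .le s t => codeT s ++ codeT t ++ [(6, 0)]
  | .not φ => codeF φ ++ [(7, 0)]
  | .and φ ψ => codeF φ ++ codeF ψ ++ [(8, 0)]
  | .or φ ψ => codeF φ ++ codeF ψ ++ [(9, 0)]

open Classical in
/-- The existential theory of the reals: binary codes of quantifier-free formulas whose
existential closure is true over the reals. -/
noncomputable def ExTheory : N68a2faeb.DecisionProblem := fun s =>
  decide (∃ φ : QFree, s = N487b59b3.bitEncode (codeF φ) ∧ ∃ y : ℕ → ℝ, TrueAt y φ)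

/-- The polynomial function with the given list of rational coefficients, constant term first. -/
noncomputable def polyFun (c : List ℚ) (x : ℝ) : ℝ :=
  ∑ i : Fin c.length, ((c.get i : ℚ) : ℝ) * x ^ (i : ℕ)

/-- `x 1 ≤ … ≤ x k` is a `k`-cut of `[0, 1]`, with `x 0 = 0` and `x (k + 1) = 1`. -/
def IsCut (k : ℕ) (x : ℕ → ℝ) : Prop :=
  x 0 = 0 ∧ x (k + 1) = 1 ∧ ∀ j ≤ k, x j ≤ x (j + 1)

/-- The value that `F` gives to the union of the intervals `[x j, x (j + 1)]` with `j ≤ k` and
`j ≡ p` modulo two. -/
noncomputable def sideValue (F : ℝ → ℝ) (k : ℕ) (x : ℕ → ℝ) (p : ℕ) : ℝ :=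
  ∑ j ∈ (Finset.range (k + 1)).filter (fun j => j % 2 = p), (F (x (j + 1)) - F (x j))

open Classical in
/-- The polynomial version of Consensus Halving: binary codes of pairs (list of coefficient lists,
`k`) admitting a `k`-cut that is a consensus halving. -/
noncomputable def PolyCH : N68a2faeb.DecisionProblem := fun s =>
  decide (∃ (Fs : List (List ℚ)) (k : ℕ), s = N487b59b3.bitEncode (Fs, k) ∧
    ∃ x : ℕ → ℝ, IsCut k x ∧ ∀ c ∈ Fs, sideValue (polyFun c) k x 0 = sideValue (polyFun c) k x 1)

end Pool.Agent.Lib.MP_73cdf8_lc
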