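import Pool.Agent.Lib.MP_73cdf8_lc.Series
import Pool.Agent.Lib.MP_acf5a6_lc.Quad

/-! Encoding a homogeneous quadratic system by linear conditions on the moments. -/

set_option autoImplicit false

noncomputable section

namespace Pool.Agent.Lib.MP_73cdf8_lc

open Finset Polynomial Pool.Agent.Lib.MP_acf5a6_lc

/-- Offset of the second copy of the variables. -/
def LL (n : ℕ) : ℕ := n * n + n
/-- The gap length. -/
def be (n : ℕ) : ℕ := 8 * LL n + 1
/-- Position of the product of the variables `i` and `j`. -/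
def pos (n i j : ℕ) : ℕ := 2 * be n + (LL n + LL n + (LL n + n * j - i))

/-- The polynomial carrying two copies of the variables. -/
def polU (n : ℕ) (a : ℕ → ℝ) : ℝ[X] := ∑ i ∈ range n, C (a i) * (X ^ i + X ^ (LL n + n * i))

/-- The linear conditions on the rescaled moments. -/
def Cond (n : ℕ) (E : List QF) (b : ℕ → ℝ) : Prop :=
  (∀ m < be n, b m = 0) ∧
  (∀ e < be n, b (be n + e) = ∑ i ∈ range n,
    ((if e = i then 1 else 0) + (if e = LL n + n * i then 1 else 0)) * b (be n + i)) ∧
  (∀ e < be n, b (2 * be n + e) =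
    if e ≤ 4 * LL n then b (2 * be n + (4 * LL n - e)) else 0) ∧
  (∀ q ∈ E, (q.map fun t => (t.1 : ℝ) * b (pos n t.2.1 t.2.2)).sum = 0) ∧
  b (2 * be n + (LL n + LL n)) + 16 * n * ∑ i ∈ range n, b (pos n i i) = 0

lemma mul_bound {n i : ℕ} (h : i < n) : n * i + n ≤ n * n := by nlinarith

lemma mul_sep {n i j : ℕ} (h : i < j) : n * i + n ≤ n * j := by nlinarith

lemma coeff_polU (n : ℕ) (a : ℕ → ℝ) (e : ℕ) : (polU n a).coeff e = ∑ i ∈ range n,
    ((if e = i then 1 else 0) + (if e = LL n + n * i then 1 else 0)) * a i := by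
  unfold polU
  rw [finsetSum_coeff]
  refine Finset.sum_congr rfl fun i _ => ?_
  rw [coeff_C_mul, coeff_add, coeff_X_pow, coeff_X_pow, mul_comm]

lemma coeff_polU_lt {n : ℕ} (a : ℕ → ℝ) {e : ℕ} (he : e < n) : (polU n a).coeff e = a e := by
  rw [coeff_polU, Finset.sum_eq_single e]
  · have : e ≠ LL n + n * e := by unfold LL; omega
    simp [this]
  · intro i _ hi
    have : e ≠ LL n + n * i := by unfold LL; omega
    simp [this, Ne.symm hi]
  · intro h; exact absurd (mem_range.mpr he) h

lemma polU_natDegree (n : ℕ) (a : ℕ → ℝ) : (polU n a).natDegree ≤ LL n + LL n := by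
  rw [natDegree_le_iff_coeff_eq_zero]
  intro e he
  rw [coeff_polU]
  refine Finset.sum_eq_zero fun i hi => ?_
  have := mul_bound (mem_range.mp hi)
  have := mem_range.mp hi
  have h1 : e ≠ i := by unfold LL at he; omega
  have h2 : e ≠ LL n + n * i := by unfold LL at he ⊢; omega
  simp [h1, h2]

lemma reflect_sum {ι : Type} (s : Finset ι) (f : ι → ℝ[X]) (N : ℕ) :
    reflect N (∑ i ∈ s, f i) = ∑ i ∈ s, reflect N (f i) := by
  ext m
  simp only [coeff_reflect, finsetSum_coeff]

lemma reflect_polU (n : ℕ) (a : ℕ → ℝ) : reflect (LL n + LL n) (polU n a)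
    = ∑ i ∈ range n, C (a i) * (X ^ (LL n + LL n - i) + X ^ (LL n - n * i)) := by
  unfold polU
  rw [reflect_sum]
  refine Finset.sum_congr rfl fun i hi => ?_
  have := mul_bound (mem_range.mp hi)
  have := mem_range.mp hi
  rw [reflect_C_mul, reflect_add, reflect_monomial, reflect_monomial,
    revAt_le (by unfold LL; omega), revAt_le (by unfold LL; omega)]
  congr 3
  omega

lemma coeff_prod_polU (n : ℕ) (a : ℕ → ℝ) (e : ℕ) :
    (polU n a * reflect (LL n + LL n) (polU n a)).coeff e = ∑ j ∈ range n, ∑ i ∈ range n,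
      a j * a i * ((if e = j + (LL n + LL n - i) then 1 else 0)
        + (if e = j + (LL n - n * i) then 1 else 0)
        + (if e = LL n + n * j + (LL n + LL n - i) then 1 else 0)
        + (if e = LL n + n * j + (LL n - n * i) then 1 else 0)) := by
  rw [reflect_polU, polU, Finset.sum_mul_sum, finsetSum_coeff]
  refine Finset.sum_congr rfl fun j _ => ?_
  rw [finsetSum_coeff]
  refine Finset.sum_congr rfl fun i _ => ?_
  have : C (a j) * (X ^ j + X ^ (LL n + n * j)) * (C (a i) * (X ^ (LL n + LL n - i)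
      + X ^ (LL n - n * i))) = C (a j * a i) * (X ^ (j + (LL n + LL n - i))
      + X ^ (j + (LL n - n * i)) + X ^ (LL n + n * j + (LL n + LL n - i))
      + X ^ (LL n + n * j + (LL n - n * i))) := by
    rw [C_mul]; ring
  rw [this, coeff_C_mul]
  simp only [coeff_add, coeff_X_pow]

lemma coeff_polW_pos {n : ℕ} (a : ℕ → ℝ) {i j : ℕ} (hi : i < n) (hj : j < n) :
    (polW (LL n + LL n) (polU n a)).coeff (LL n + LL n + (LL n + n * j - i)) = -(a i * a j) := by
  have b0 := mul_bound hj
  have hL : LL n = n * n + n := rfl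
  rw [polW, coeff_sub, coeff_X_pow, if_neg (by omega), coeff_prod_polU,
    Finset.sum_eq_single j, Finset.sum_eq_single i]
  · have b1 := mul_bound hi
    rw [if_neg (by omega), if_neg (by omega), if_pos (by omega), if_neg (by omega)]
    ring
  · intro i' hi' hne
    have := mem_range.mp hi'
    have b1 := mul_bound this
    rw [if_neg (by omega), if_neg (by omega), if_neg (by omega), if_neg (by omega)]
    ring
  · intro h; exact absurd (mem_range.mpr hi) h
  · intro j' hj' hne
    refine Finset.sum_eq_zero fun i' hi' => ?_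
    have h1 := mem_range.mp hi'
    have h2 := mem_range.mp hj'
    have b1 := mul_bound h1
    have b2 := mul_bound h2
    have b3 : n * j' + n ≤ n * j ∨ n * j + n ≤ n * j' := by
      rcases lt_or_gt_of_ne hne with h | h
      · exact Or.inl (mul_sep h)
      · exact Or.inr (mul_sep h)
    rw [if_neg (by omega), if_neg (by omega), if_neg (by omega), if_neg (by omega)]
    ring
  · intro h; exact absurd (mem_range.mpr hj) h

lemma coeff_polW_mid (n : ℕ) (a : ℕ → ℝ) :
    (polW (LL n + LL n) (polU n a)).coeff (LL n + LL n) = 1 - 2 * ∑ i ∈ range n, a i ^ 2 := by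
  have hL : LL n = n * n + n := rfl
  rw [polW, coeff_sub, coeff_X_pow, if_pos rfl, coeff_prod_polU, Finset.mul_sum]
  congr 1
  refine Finset.sum_congr rfl fun j hj => ?_
  have h2 := mem_range.mp hj
  have b2 := mul_bound h2
  rw [Finset.sum_eq_single j]
  · rw [if_pos (by omega), if_neg (by omega), if_neg (by omega), if_pos (by omega)]
    ring
  · intro i hi hne
    have h1 := mem_range.mp hi
    have b1 := mul_bound h1
    have b3 : n * i + n ≤ n * j ∨ n * j + n ≤ n * i := by
      rcases lt_or_gt_of_ne hne with h | h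
      · exact Or.inl (mul_sep h)
      · exact Or.inr (mul_sep h)
    rw [if_neg (by omega), if_neg (by omega), if_neg (by omega), if_neg (by omega)]
    ring
  · intro h; exact absurd hj h

lemma pos_bound {n i j : ℕ} (hj : j < n) : LL n + LL n + (LL n + n * j - i) ≤ 4 * LL n := by
  have := mul_bound hj
  unfold LL; omega

lemma quadf_natDegree (c : ℝ) : (quadf c).natDegree = 2 := by
  unfold quadf; compute_degree!

lemma quadf_monic (c : ℝ) : (quadf c).Monic := by
  unfold quadf; monicity!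

lemma quadf_reflect (c : ℝ) : reflect 2 (quadf c) = quadf c := by
  have h1 : reflect 2 (X : ℝ[X]) = X := by
    simpa [revAt_le] using reflect_monomial 2 1 (R := ℝ)
  unfold quadf
  rw [reflect_add, reflect_sub, reflect_C_mul, h1, reflect_monomial, reflect_one,
    revAt_le le_rfl]
  ring

lemma prod_quadf (r : ℕ) (c : ℕ → ℝ) : (∏ j ∈ range r, quadf (c j)).natDegree = 2 * r ∧
    (∏ j ∈ range r, quadf (c j)).Monic ∧ (∏ j ∈ range r, quadf (c j)).coeff 0 = 1 ∧
    reflect (2 * r) (∏ j ∈ range r, quadf (c j)) = ∏ j ∈ range r, quadf (c j) := by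
  induction r with
  | zero => simp
  | succ r ih =>
    obtain ⟨h1, h2, h3, h4⟩ := ih
    rw [Finset.prod_range_succ]
    refine ⟨?_, h2.mul (quadf_monic _), ?_, ?_⟩
    · rw [h2.natDegree_mul (quadf_monic _), h1, quadf_natDegree]; ring
    · rw [mul_coeff_zero, h3]; simp [quadf]
    · rw [mul_add, mul_one, reflect_mul _ _ h1.le (quadf_natDegree _).le, h4, quadf_reflect]

lemma polN_facts (r : ℕ) (c : ℕ → ℝ) : (polN r c).natDegree ≤ 2 * r + 2 ∧
    (polN r c).coeff 0 = 1 ∧ reflect (2 * r + 2) (polN r c) = polN r c := by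
  obtain ⟨h1, -, h3, h4⟩ := prod_quadf (r + 1) fun j => c (2 * j + 1)
  exact ⟨h1.le, h3, h4⟩

lemma polD_facts (r : ℕ) (c : ℕ → ℝ) : (polD r c).natDegree ≤ 2 * r + 2 ∧
    (polD r c).coeff 0 = 1 ∧ reflect (2 * r + 2) (polD r c) = -polD r c := by
  obtain ⟨h1, -, h3, h4⟩ := prod_quadf r fun j => c (2 * j + 2)
  have d : (1 - X ^ 2 : ℝ[X]).natDegree ≤ 2 := by compute_degree
  unfold polD
  refine ⟨natDegree_mul_le.trans (by omega), by rw [mul_coeff_zero, h3]; simp, ?_⟩
  rw [add_comm, reflect_mul _ _ d h1.le, h4, reflect_sub, reflect_one, reflect_monomial,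
    revAt_le le_rfl]
  ring

lemma dvd_coe_iff (p : ℝ[X]) (n : ℕ) :
    (PowerSeries.X : PowerSeries ℝ) ^ n ∣ (p : PowerSeries ℝ) ↔ X ^ n ∣ p := by
  rw [Polynomial.X_pow_dvd_iff, PowerSeries.X_pow_dvd_iff]
  simp only [Polynomial.coeff_coe]

lemma list_sum_congr {α : Type} {l : List α} {f g : α → ℝ} (h : ∀ a ∈ l, f a = g a) :
    (l.map f).sum = (l.map g).sum := by rw [List.map_congr_left h]

theorem sound {n : ℕ} {E : List QF} (hE : Bdd n E) (c : ℕ → ℝ)
    (h : Cond n E (bb (9 * LL n) c)) : Proj n E := by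
  obtain ⟨z1, z2, z3, hq, hn⟩ := h
  set b := bb (9 * LL n) c with hb
  obtain ⟨n1, n2, n3⟩ := polN_facts (9 * LL n) c
  obtain ⟨d1, d2, d3⟩ := polD_facts (9 * LL n) c
  have hK : 2 * (9 * LL n) + 2 = be n + (be n + (LL n + LL n)) := by unfold be; ring
  rw [hK] at n1 n3 d1 d3
  set N := polN (9 * LL n) c with hN
  set D := polD (9 * LL n) c with hD
  set A : ℝ[X] := C (1 / 2) * (N + D) with hA
  set S : ℝ[X] := C (1 / 2) * (N - D) with hS
  have h2 : (C (1 / 2) : ℝ[X]) * 2 = 1 := by
    rw [← map_ofNat C 2, ← C_mul]; norm_num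
  have hA0 : A.coeff 0 = 1 := by rw [hA, coeff_C_mul, coeff_add, n2, d2]; norm_num
  have hS0 : S.coeff 0 = 0 := by rw [hS, coeff_C_mul, coeff_sub, n2, d2]; norm_num
  have hAd : A.natDegree ≤ be n + (be n + (LL n + LL n)) :=
    (natDegree_C_mul_le _ _).trans ((natDegree_add_le _ _).trans (max_le n1 d1))
  have hrefl : reflect (be n + (be n + (LL n + LL n))) A = S := by
    rw [hA, reflect_C_mul, reflect_add, n3, d3, hS, sub_eq_add_neg]
  obtain ⟨k1, k2⟩ := main_dvd (9 * LL n) c A S (by rw [hA, hS]; linear_combination -N * h2)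
    (by rw [hA, hS]; linear_combination -D * h2) hA0 hS0 (α := be n) (Nat.succ_pos _) (Or.inl z1)
  set a : ℕ → ℝ := fun i => b (be n + i) with ha
  set U1 : ℝ[X] := ∑ e ∈ range (4 * LL n + 1), C (b (2 * be n + e)) * X ^ e with hU1
  have cU1 : ∀ e, U1.coeff e = if e ≤ 4 * LL n then b (2 * be n + e) else 0 := by
    intro e
    rw [hU1, finsetSum_coeff]
    simp only [coeff_C_mul_X_pow]
    rw [Finset.sum_ite_eq]
    simp
  have hbe : be n = 8 * LL n + 1 := rfl
  have hU1d : U1.natDegree ≤ LL n + LL n + (LL n + LL n) := by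
    rw [natDegree_le_iff_coeff_eq_zero]
    intro e he
    rw [cU1, if_neg (by omega)]
  have hsym : reflect (LL n + LL n + (LL n + LL n)) U1 = U1 := by
    ext e
    rw [coeff_reflect]
    by_cases he : e ≤ 4 * LL n
    · rw [revAt_le (by omega), cU1, cU1, if_pos (by omega), if_pos he, z3 e (by omega), if_pos he]
      congr 2; omega
    · rw [revAt_eq_self_of_lt (by omega)]
  have hH : (PowerSeries.X : PowerSeries ℝ) ^ (3 * be n) ∣ PowerSeries.mk b
      - ((X ^ be n * polU n a + X ^ (2 * be n) * U1 : ℝ[X]) : PowerSeries ℝ) := by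
    rw [PowerSeries.X_pow_dvd_iff]
    intro m hm
    rw [map_sub, PowerSeries.coeff_mk, Polynomial.coeff_coe, coeff_add, coeff_X_pow_mul',
      coeff_X_pow_mul', sub_eq_zero]
    by_cases h1 : be n ≤ m
    · by_cases h3 : 2 * be n ≤ m
      · obtain ⟨e, rfl⟩ := Nat.exists_eq_add_of_le h3
        have := polU_natDegree n a
        rw [if_pos h1, if_pos h3, coeff_eq_zero_of_natDegree_lt (by omega), zero_add,
          Nat.add_sub_cancel_left, cU1]
        split_ifs with he
        · rfl
        · rw [z3 e (by omega), if_neg he]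
      · obtain ⟨e, rfl⟩ := Nat.exists_eq_add_of_le h1
        rw [if_pos h1, if_neg h3, add_zero, Nat.add_sub_cancel_left, coeff_polU, z2 e (by omega)]
    · rw [if_neg h1, if_neg (by omega), add_zero, z1 m (by omega)]
  have k3 : X ^ (3 * be n) ∣ A * (X ^ be n * polU n a + X ^ (2 * be n) * U1) - S := by
    rw [← dvd_coe_iff]
    have := dvd_sub k2 (hH.mul_left (A : PowerSeries ℝ))
    have e : ((A * (X ^ be n * polU n a + X ^ (2 * be n) * U1) - S : ℝ[X]) : PowerSeries ℝ)
        = (A : PowerSeries ℝ) * PowerSeries.mk (bb (9 * LL n) c) - S - (A : PowerSeries ℝ) *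
          (PowerSeries.mk b
            - ((X ^ be n * polU n a + X ^ (2 * be n) * U1 : ℝ[X]) : PowerSeries ℝ)) := by
      rw [hb]; push_cast; ring
    rw [e]; exact this
  have hrig := rigid (β := be n) (σ := LL n + LL n) (by omega) hAd hA0 (polU_natDegree n a) hU1d
    hsym (hrefl ▸ k1) (hrefl ▸ k3)
  obtain ⟨s, hs, hsU⟩ : ∃ s : ℝ, s ≠ 0 ∧ ∀ e ≤ 4 * LL n,
      b (2 * be n + e) = s * (polW (LL n + LL n) (polU n a)).coeff e := by
    rcases hrig with h | h
    · exact ⟨1, one_ne_zero, fun e he => by rw [← h, cU1, if_pos he, one_mul]⟩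
    · refine ⟨-1, by norm_num, fun e he => ?_⟩
      have := cU1 e
      rw [h, if_pos he, coeff_neg] at this
      linarith
  have hpos : ∀ i < n, ∀ j < n, b (pos n i j) = -s * (a i * a j) := by
    intro i hi j hj
    rw [pos, hsU _ (pos_bound hj), coeff_polW_pos a hi hj]; ring
  refine ⟨a, ?_, fun q hq' => ?_⟩
  · by_contra hcon
    push Not at hcon
    rw [hsU _ (by omega), coeff_polW_mid,
      Finset.sum_eq_zero fun i hi => by rw [hcon i (mem_range.mp hi)]; ring,
      Finset.sum_eq_zero fun i hi => by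
        rw [hpos i (mem_range.mp hi) i (mem_range.mp hi), hcon i (mem_range.mp hi)]; ring] at hn
    apply hs; linarith
  · have e1 := hq q hq'
    rw [list_sum_congr (g := fun t => -s * ((t.1 : ℝ) * a t.2.1 * a t.2.2)) (fun t ht => by
      rw [hpos _ (hE q hq' t ht).1 _ (hE q hq' t ht).2]; ring), List.sum_map_mul_left] at e1
    exact (mul_eq_zero.mp e1).resolve_left (neg_ne_zero.mpr hs)

end Pool.Agent.Lib.MP_73cdf8_lc
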