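import Pool.Agent.Lib.MP_73cdf8_lc.Main

set_option autoImplicit false

namespace Pool.Agent.Lib.MP_73cdf8_lc.HardKept

open Pool.Agent.Lib.MP_73cdf8_lc

/-- Every language that reduces to the existential theory of the reals reduces to polynomial
Consensus Halving, by a polynomial-time map whose valuations are all strictly increasing. -/
theorem result (L : N68a2faeb.DecisionProblem) (hL : N793a5b8e.ManyOneReducible L ExTheory) :
    ∃ f : List Bool → List Bool, N68a2faeb.IsPolyTime f ∧ (∀ s, L s = PolyCH (f s)) ∧
      ∀ s, ∃ (Fs : List (List ℚ)) (k : ℕ), f s = N487b59b3.bitEncode (Fs, k) ∧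
        ∀ c ∈ Fs, StrictMonoOn (polyFun c) (Set.Icc 0 1) :=
  hard L hL

end Pool.Agent.Lib.MP_73cdf8_lc.HardKept
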