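import Pool.Agent.Lib.MP_73cdf8_lc.Reduce
import Pool.Agent.Lib.MP_73cdf8_lc.Sim

/-! The reduction runs in polynomial time; hardness and the final statement. -/

set_option autoImplicit false
set_option linter.unusedSectionVars false

namespace Pool.Agent.Lib.MP_73cdf8_lc

open Pool.Agent.Lib.MP_acf5a6_lc N487b59b3

section pt

variable {α β : Type} [N487b59b3 α] [N487b59b3 β]

theorem getD_eq_filter (l : List β) (k j : ℕ) (d : β) :
    (((l.zipIdx k).filter fun p => decide (p.2 = k + j)).map Prod.fst).headD d = l.getD j d := by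
  induction l generalizing k j with
  | nil => simp
  | cons b l ih =>
    cases j with
    | zero => simp
    | succ j =>
      have := ih (k + 1) j
      rw [List.zipIdx_cons, List.filter_cons_of_neg (by simp), List.getD_cons_succ, ← this,
        Nat.add_right_comm k 1 j, Nat.add_assoc]

@[fun_prop] theorem PT_getD {l : α → List β} {j : α → ℕ} {d : α → β} (hl : PT l) (hj : PT j)
    (hd : PT d) : PT (fun a => (l a).getD (j a) (d a)) := by
  have : PT (fun a => ((((l a).zipIdx).filter fun p => decide (p.2 = j a)).map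
      (fun p => p.1)).headD (d a)) := by fun_prop
  exact this.of_eq fun a => by simpa using getD_eq_filter (l a) 0 (j a) (d a)

theorem sz_nat_mul (m n : ℕ) : sz (m * n) ≤ sz m + sz n := by
  rw [sz_nat, Nat.size_le, pow_add]
  exact Nat.mul_lt_mul'' (lt_two_pow_sz m) (lt_two_pow_sz n)

@[fun_prop] theorem PT_natProd {l : α → List ℕ} (hl : PT l) : PT (fun a => (l a).prod) := by
  have h1 := PT.foldlA (g := fun (_ : α) (r b : ℕ) => r * b) (h := fun _ => 1) (l := l)
    (by fun_prop) (PT.const _) hl (B := fun x => sz x.2) (PB.of_PT (by fun_prop))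
    (fun a c b => sz_nat_mul c b)
  exact h1.of_eq (fun a => (List.prod_eq_foldl).symm)

theorem sz_int_le (z : ℤ) {c : ℕ} (h : z.natAbs < 2 ^ c) : sz z ≤ 3 * c + 1 := by
  have e : sz z = sz (z.toNat, (-z).toNat) := rfl
  have h1 : sz z.toNat ≤ c := by rw [sz_nat, Nat.size_le]; omega
  have h2 : sz (-z).toNat ≤ c := by rw [sz_nat, Nat.size_le]; omega
  rw [e, sz_pair]; omega

theorem sz_list_le (l : List β) {c : ℕ} (h : ∀ b ∈ l, sz b ≤ c) :
    sz l ≤ l.length * (2 * c + 1) := by
  induction l with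
  | nil => simp
  | cons b l ih =>
    have h1 := h b List.mem_cons_self
    have h2 := ih fun x hx => h x (List.mem_cons_of_mem _ hx)
    simp only [sz_cons, List.length_cons, add_mul]
    omega

theorem sz_row {d m : ℕ} (h : m ≤ d + 1) : sz (row d m) ≤ d * (2 * (3 * (3 * d + 4) + 1) + 1) := by
  have := sz_list_le (row d m) (c := 3 * (3 * d + 4) + 1) fun b hb => by
    obtain ⟨j, -, rfl⟩ := List.mem_map.mp hb
    refine sz_int_le _ ((tc_bound m j).trans_lt ?_)
    calc 7 ^ m ≤ 8 ^ m := Nat.pow_le_pow_left (by norm_num) _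
      _ ≤ 8 ^ (d + 1) := Nat.pow_le_pow_right (by norm_num) h
      _ = 2 ^ (3 * d + 3) := by rw [show 8 = 2 ^ 3 by norm_num, ← pow_mul]; rfl
      _ < 2 ^ (3 * d + 4) := Nat.pow_lt_pow_right (by norm_num) (by omega)
  simpa [row] using this

@[fun_prop] theorem PT_chebPair {u : α → Un} {m : α → ℕ} (hu : PT u) (hm : PT m) :
    PT (fun a => chebPair (u a).n (m a)) := by
  have r0 : PT (fun a => row (u a).n 0) := by
    unfold row; simp only [tc]; fun_prop
  have r1 : PT (fun a => row (u a).n 1) := by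
    unfold row; simp only [tc]; fun_prop
  have b0 := PB.of_PT hu
  have b1 := b0.mul (((PB.const 2).mul (((PB.const 3).mul (((PB.const 3).mul b0).add
    (PB.const 4))).add (PB.const 1))).add (PB.const 1))
  refine PT.foldl (g := fun a s i => if i < m a then step (u a).n s else s)
    (by unfold step; fun_prop) (PT.prodMk r0 r1) (PT.range' hu)
    ((((PB.const 2).mul b1).add (PB.const 1)).add b1) fun a i => ?_
  rw [List.take_range, foldl_range, sz_pair, sz_un]
  have h1 := sz_row (d := (u a).n) (m := min (min i (u a).n) (m a)) (by omega)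
  have h2 := sz_row (d := (u a).n) (m := min (min i (u a).n) (m a) + 1) (by omega)
  omega

@[fun_prop] theorem PT_cof {u : α → Un} {m : α → ℕ} (hu : PT u) (hm : PT m) :
    PT (fun a => cof (u a).n (m a)) := by
  unfold cof; fun_prop

@[fun_prop] theorem PT_coefOf {u : α → Un} {l : α → Lin} {j : α → ℕ} (hu : PT u) (hl : PT l)
    (hj : PT j) : PT (fun a => coefOf (u a).n (l a) (j a)) := by
  unfold coefOf; fun_prop

@[fun_prop] theorem PT_slope {u : α → Un} {l : α → Lin} (hu : PT u) (hl : PT l) :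
    PT (fun a => slope (u a).n (l a)) := by
  unfold slope; fun_prop

theorem PT_monoOf {u : α → Un} {l : α → Lin} (hu : PT u) (hl : PT l) :
    PT (fun a => monoOf (u a).n (l a)) := by
  unfold monoOf; fun_prop

/-- The gap length in unary. -/
def beU (u : Un) : Un := ((Un.mk 8).mul ((u.mul u).add u)).add ⟨1⟩

@[fun_prop] theorem PT_beU {u : α → Un} (hu : PT u) : PT (fun a => beU (u a)) := by
  unfold beU; fun_prop

@[fun_prop] theorem PT_LL {n : α → ℕ} (hn : PT n) : PT (fun a => LL (n a)) := by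
  unfold LL; fun_prop

@[fun_prop] theorem PT_be {n : α → ℕ} (hn : PT n) : PT (fun a => be (n a)) := by
  unfold be; fun_prop

@[fun_prop] theorem PT_pos {n i j : α → ℕ} (hn : PT n) (hi : PT i) (hj : PT j) :
    PT (fun a => pos (n a) (i a) (j a)) := by
  unfold pos; fun_prop

theorem PT_chInst {u : α → Un} {E : α → List QF} (hu : PT u) (hE : PT E) :
    PT (fun a => chInst (u a).n (E a)) := by
  have h4 : PT (fun a => conds (u a).n (E a)) := by
    have e : ∀ a, List.range (be (u a).n) = List.range (beU (u a)).n := fun _ => rfl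
    unfold conds
    simp only [e]
    fun_prop
  have h5 : PT (fun x : α × Lin => monoOf (3 * be (u x.1).n) x.2) :=
    PT_monoOf (u := fun x : α × Lin => (Un.mk 3).mul (beU (u x.1))) (by fun_prop) (by fun_prop)
  exact PT.prodMk (PT.cons (PT.const _) (PT.map h5 h4)) (by fun_prop)

end pt

/-- The reduction. -/
def redCH (ts : List (ℕ × ℤ)) : List (List ℚ) × ℕ :=
  chInst (redM ts).n (hom (redN ts).n (redK ts).n (system ts))

theorem redCH_PT : PT redCH := by
  have h0 := PT.system'
  have h1 : PT redN := by unfold redN; fun_prop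
  have h2 : PT redK := by unfold redK; fun_prop
  have h3 : PT redM := by unfold redM; fun_prop
  exact PT_chInst h3 (PT.hom' h1 h2 h0)

theorem redCH_iff (ts : List (ℕ × ℤ)) :
    ETR (bitEncode ts) = true ↔ PolyCH (bitEncode (redCH ts)) = true := by
  have h1 : Bdd (redN ts).n (system ts) := system_bdd ts
  have h2 : Bdd (redM ts).n (hom (redN ts).n (redK ts).n (system ts)) := hom_bdd h1
  rw [etr_enc, redCH, chInst_iff (n := (redM ts).n) (Nat.succ_pos _) h2, ← system_iff]
  exact aff_iff_proj (Nat.succ_pos _) h1 (lt_two_pow_sz _).le rfl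

theorem etr_le_ch : ∃ g : List Bool → List Bool, PT g ∧ (∀ s, ETR s = PolyCH (g s)) ∧
    ∀ s, ∃ ts, g s = bitEncode (redCH ts) := by
  obtain ⟨F, hF, h1, h2⟩ := (Chk.nat.prod Chk.int).list.parse redCH_PT (redCH [])
  refine ⟨fun s => (toRaw (F ⟨s⟩)).s, PT.rawBits (PT.toRaw' (PT.comp hF (PT.rawMk PT.id'))),
    fun s => ?_, fun s => ?_⟩
  · by_cases hs : ∃ a : List (ℕ × ℤ), bitEncode a = s
    · obtain ⟨a, rfl⟩ := hs
      have := h1 a
      simp only [toRaw] at this ⊢
      rw [this]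
      exact Bool.eq_iff_iff.2 (redCH_iff a)
    · have := h2 ⟨s⟩ hs
      simp only [toRaw]
      rw [this, Bool.eq_iff_iff, ← redCH_iff, etr_enc]
      constructor
      · intro h
        simp only [ETR, decide_eq_true_eq] at h
        obtain ⟨φ, h, -⟩ := h
        exact absurd ⟨_, h.symm⟩ hs
      · rintro ⟨φ, h, -⟩
        have := (wf_iff []).2 ⟨φ, h⟩
        simp [wf] at this
  · by_cases hs : ∃ a : List (ℕ × ℤ), bitEncode a = s
    · obtain ⟨a, rfl⟩ := hs
      exact ⟨a, congrArg bitEncode (h1 a)⟩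
    · exact ⟨[], congrArg bitEncode (h2 ⟨s⟩ hs)⟩

theorem term_to : ∀ t : PTerm, ∃ s : Term, termCode s = codeT t ∧ ∀ y, termVal y s = valueAt y t
  | .var k => ⟨.var k, rfl, fun _ => rfl⟩
  | .const c => ⟨.const c, rfl, fun _ => rfl⟩
  | .add a b => by
    obtain ⟨s, h1, h2⟩ := term_to a
    obtain ⟨t, h3, h4⟩ := term_to b
    exact ⟨.add s t, by simp [termCode, codeT, h1, h3], by simp [termVal, valueAt, h2, h4]⟩
  | .mul a b => by
    obtain ⟨s, h1, h2⟩ := term_to a
    obtain ⟨t, h3, h4⟩ := term_to b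
    exact ⟨.mul s t, by simp [termCode, codeT, h1, h3], by simp [termVal, valueAt, h2, h4]⟩

theorem term_from : ∀ s : Term, ∃ t : PTerm, termCode s = codeT t ∧ ∀ y, termVal y s = valueAt y t
  | .var k => ⟨.var k, rfl, fun _ => rfl⟩
  | .const c => ⟨.const c, rfl, fun _ => rfl⟩
  | .add a b => by
    obtain ⟨s, h1, h2⟩ := term_from a
    obtain ⟨t, h3, h4⟩ := term_from b
    exact ⟨.add s t, by simp [termCode, codeT, h1, h3], by simp [termVal, valueAt, h2, h4]⟩
  | .mul a b => by
    obtain ⟨s, h1, h2⟩ := term_from a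
    obtain ⟨t, h3, h4⟩ := term_from b
    exact ⟨.mul s t, by simp [termCode, codeT, h1, h3], by simp [termVal, valueAt, h2, h4]⟩

theorem form_to : ∀ φ : QFree, ∃ ψ : Formula, formulaCode ψ = codeF φ ∧ ∀ y, Holds y ψ ↔ TrueAt y φ
  | .eq a b => by
    obtain ⟨s, h1, h2⟩ := term_to a
    obtain ⟨t, h3, h4⟩ := term_to b
    exact ⟨.eq s t, by simp [formulaCode, codeF, h1, h3], by simp [Holds, TrueAt, h2, h4]⟩
  | .lt a b => by
    obtain ⟨s, h1, h2⟩ := term_to a
    obtain ⟨t, h3, h4⟩ := term_to b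
    exact ⟨.lt s t, by simp [formulaCode, codeF, h1, h3], by simp [Holds, TrueAt, h2, h4]⟩
  | .le a b => by
    obtain ⟨s, h1, h2⟩ := term_to a
    obtain ⟨t, h3, h4⟩ := term_to b
    exact ⟨.le s t, by simp [formulaCode, codeF, h1, h3], by simp [Holds, TrueAt, h2, h4]⟩
  | .not a => by
    obtain ⟨s, h1, h2⟩ := form_to a
    exact ⟨.not s, by simp [formulaCode, codeF, h1], by simp [Holds, TrueAt, h2]⟩
  | .and a b => by
    obtain ⟨s, h1, h2⟩ := form_to a
    obtain ⟨t, h3, h4⟩ := form_to b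
    exact ⟨.and s t, by simp [formulaCode, codeF, h1, h3], by simp [Holds, TrueAt, h2, h4]⟩
  | .or a b => by
    obtain ⟨s, h1, h2⟩ := form_to a
    obtain ⟨t, h3, h4⟩ := form_to b
    exact ⟨.or s t, by simp [formulaCode, codeF, h1, h3], by simp [Holds, TrueAt, h2, h4]⟩

theorem form_from : ∀ ψ : Formula,
    ∃ φ : QFree, formulaCode ψ = codeF φ ∧ ∀ y, Holds y ψ ↔ TrueAt y φ
  | .eq a b => by
    obtain ⟨s, h1, h2⟩ := term_from a
    obtain ⟨t, h3, h4⟩ := term_from b
    exact ⟨.eq s t, by simp [formulaCode, codeF, h1, h3], by simp [Holds, TrueAt, h2, h4]⟩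
  | .lt a b => by
    obtain ⟨s, h1, h2⟩ := term_from a
    obtain ⟨t, h3, h4⟩ := term_from b
    exact ⟨.lt s t, by simp [formulaCode, codeF, h1, h3], by simp [Holds, TrueAt, h2, h4]⟩
  | .le a b => by
    obtain ⟨s, h1, h2⟩ := term_from a
    obtain ⟨t, h3, h4⟩ := term_from b
    exact ⟨.le s t, by simp [formulaCode, codeF, h1, h3], by simp [Holds, TrueAt, h2, h4]⟩
  | .not a => by
    obtain ⟨s, h1, h2⟩ := form_from a
    exact ⟨.not s, by simp [formulaCode, codeF, h1], by simp [Holds, TrueAt, h2]⟩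
  | .and a b => by
    obtain ⟨s, h1, h2⟩ := form_from a
    obtain ⟨t, h3, h4⟩ := form_from b
    exact ⟨.and s t, by simp [formulaCode, codeF, h1, h3], by simp [Holds, TrueAt, h2, h4]⟩
  | .or a b => by
    obtain ⟨s, h1, h2⟩ := form_from a
    obtain ⟨t, h3, h4⟩ := form_from b
    exact ⟨.or s t, by simp [formulaCode, codeF, h1, h3], by simp [Holds, TrueAt, h2, h4]⟩

theorem exTheory_eq : ExTheory = ETR := by
  funext s
  simp only [ExTheory, ETR, decide_eq_decide]
  constructor
  · rintro ⟨φ, h, y, hy⟩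
    obtain ⟨ψ, h1, h2⟩ := form_to φ
    exact ⟨ψ, by rw [h1, h], y, (h2 y).2 hy⟩
  · rintro ⟨ψ, h, y, hy⟩
    obtain ⟨φ, h1, h2⟩ := form_from ψ
    exact ⟨φ, by rw [← h1, h], y, (h2 y).1 hy⟩

theorem hard (L : N68a2faeb.DecisionProblem) (h : N793a5b8e.ManyOneReducible L ExTheory) :
    ∃ f : List Bool → List Bool, N68a2faeb.IsPolyTime f ∧ (∀ s, L s = PolyCH (f s)) ∧
      ∀ s, ∃ (Fs : List (List ℚ)) (k : ℕ), f s = bitEncode (Fs, k) ∧
        ∀ c ∈ Fs, StrictMonoOn (polyFun c) (Set.Icc 0 1) := by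
  obtain ⟨f, hf, hf'⟩ := h
  obtain ⟨g, hg, g1, g2⟩ := etr_le_ch
  refine ⟨fun s => g (f s), (PT.comp hg (PT_of_isPolyTime hf)).isPolyTime,
    fun s => by rw [hf', exTheory_eq, g1], fun s => ?_⟩
  obtain ⟨ts, h⟩ := g2 (f s)
  exact ⟨_, _, h, chInst_mono _ _⟩

end Pool.Agent.Lib.MP_73cdf8_lc
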