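import Pool.Agent.Lib.MP_73cdf8_lc.Complete
import Pool.Agent.Lib.MP_73cdf8_lc.Defs
import Pool.Agent.Lib.MP_acf5a6_lc.Forward

/-! The reduction from ETR to polynomial Consensus Halving. -/

set_option autoImplicit false

namespace Pool.Agent.Lib.MP_73cdf8_lc

open Finset Pool.Agent.Lib.MP_acf5a6_lc N487b59b3
open scoped Real

/-- Coefficients of the shifted Chebyshev polynomials `T m (1 - 2 x)`. -/
def tc : ℕ → ℕ → ℤ
  | 0, j => if j = 0 then 1 else 0
  | 1, j => if j = 0 then 1 else if j = 1 then -2 else 0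
  | m + 2, j => 2 * tc (m + 1) j - 4 * (if j = 0 then 0 else tc (m + 1) (j - 1)) - tc m j

lemma tc_sum (x : ℝ) : ∀ m d : ℕ, m < d →
    ∑ j ∈ range d, (tc m j : ℝ) * x ^ j = tch m (1 - 2 * x)
  | 0, d + 1, _ => by
    rw [Finset.sum_range_succ', tch_zero]; simp [tc]
  | 1, d + 2, _ => by
    rw [Finset.sum_range_succ', Finset.sum_range_succ', tch_one]; simp [tc]; ring
  | m + 2, d + 1, h => by
    have h1 := tc_sum x (m + 1) (d + 1) (by omega)
    have h2 := tc_sum x m (d + 1) (by omega)
    have h3 := tc_sum x (m + 1) d (by omega)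
    have h4 : ∑ j ∈ range (d + 1), (((if j = 0 then 0 else tc (m + 1) (j - 1) : ℤ)) : ℝ) * x ^ j
        = x * tch (m + 1) (1 - 2 * x) := by
      rw [Finset.sum_range_succ', ← h3, Finset.mul_sum]
      simp only [Nat.succ_ne_zero, if_false, if_true, Nat.add_sub_cancel, Int.cast_zero, zero_mul,
        add_zero]
      exact Finset.sum_congr rfl fun j _ => by ring
    rw [tch_add_two]
    have h5 : ∀ j, (tc (m + 2) j : ℝ) * x ^ j = 2 * ((tc (m + 1) j : ℝ) * x ^ j)
        - 4 * ((((if j = 0 then 0 else tc (m + 1) (j - 1) : ℤ)) : ℝ) * x ^ j)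
        - (tc m j : ℝ) * x ^ j := by
      intro j; rw [tc]; push_cast; ring
    simp only [h5, Finset.sum_sub_distrib, ← Finset.mul_sum, h1, h2, h4]
    ring

lemma tc_bound : ∀ m j : ℕ, (tc m j).natAbs ≤ 7 ^ m
  | 0, j => by rw [tc]; split_ifs <;> simp
  | 1, j => by rw [tc]; split_ifs <;> simp
  | m + 2, j => by
    have h1 := tc_bound (m + 1) j
    have h2 := tc_bound (m + 1) (j - 1)
    have h3 := tc_bound m j
    rw [tc, pow_succ, pow_succ]
    rw [pow_succ] at h1 h2
    split_ifs <;> omega

/-- A row of the table. -/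
def row (d m : ℕ) : List ℤ := (List.range d).map (tc m)

/-- One step of the three term recurrence. -/
def step (d : ℕ) (s : List ℤ × List ℤ) : List ℤ × List ℤ :=
  (s.2, (List.range d).map fun j =>
    2 * s.2.getD j 0 - 4 * (if j = 0 then 0 else s.2.getD (j - 1) 0) - s.1.getD j 0)

lemma row_getD {d j : ℕ} (m : ℕ) (h : j < d) : (row d m).getD j 0 = tc m j := by
  simp [row, List.getD, h]

lemma step_row (d m : ℕ) : step d (row d m, row d (m + 1)) = (row d (m + 1), row d (m + 2)) := by
  simp only [step, Prod.mk.injEq, true_and]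
  refine List.map_congr_left fun j hj => ?_
  have hj' := List.mem_range.mp hj
  rw [row_getD _ hj', row_getD _ hj', row_getD _ (by omega : j - 1 < d), tc]

/-- The table rows `m` and `m + 1`, computed by a bounded loop. -/
def chebPair (d m : ℕ) : List ℤ × List ℤ :=
  (List.range d).foldl (fun s i => if i < m then step d s else s) (row d 0, row d 1)

lemma foldl_range (d m i : ℕ) :
    (List.range i).foldl (fun s i => if i < m then step d s else s) (row d 0, row d 1)
      = (row d (min i m), row d (min i m + 1)) := by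
  induction i with
  | zero => simp
  | succ i ih =>
    rw [List.range_succ, List.foldl_append, ih]
    simp only [List.foldl_cons, List.foldl_nil]
    split_ifs with h
    · rw [step_row, min_eq_left h.le, min_eq_left h]
    · rw [min_eq_right (by omega), min_eq_right (by omega)]

lemma chebPair_fst {d m : ℕ} (h : m < d) : (chebPair d m).1 = row d m := by
  rw [chebPair, foldl_range, min_eq_right h.le]

/-- The product of the positive integers below `d` other than `m`. -/
def cof (d m : ℕ) : ℕ :=
  ((List.range d).map fun j => if j = 0 then 1 else if j = m then 1 else j).prod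

/-- The product of the positive integers below `d`. -/
def fac (d : ℕ) : ℕ := ∏ j ∈ range d, if j = 0 then 1 else j

lemma fac_pos (d : ℕ) : 0 < fac d :=
  Finset.prod_pos fun j _ => by split_ifs <;> omega

lemma cof_mul {d m : ℕ} (h : m < d) (h0 : m ≠ 0) : cof d m * m = fac d := by
  have e : cof d m = ∏ j ∈ range d, if j = 0 then 1 else if j = m then 1 else j := by
    rw [cof, Finset.prod_eq_multiset_prod]; rfl
  rw [e, fac, ← Finset.mul_prod_erase _ _ (mem_range.mpr h),
    ← Finset.mul_prod_erase (range d) (fun j => if j = 0 then 1 else j) (mem_range.mpr h)]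
  simp only [h0, if_false, if_true, one_mul]
  rw [mul_comm]
  congr 1
  exact Finset.prod_congr rfl fun j hj => by rw [if_neg (Finset.ne_of_mem_erase hj)]

lemma cof_mom (r : ℕ) (c : ℕ → ℝ) {d m : ℕ} (h : m < d) :
    (cof d m : ℝ) * mom r c m = -2 * fac d * bb r c m := by
  by_cases h0 : m = 0
  · subst h0
    simp [mom, bb, tch_zero]
    right; ring
  · have : (m : ℝ) ≠ 0 := by exact_mod_cast h0
    rw [← cof_mul h h0, bb]
    push_cast
    field_simp

/-- A linear condition on the rescaled moments. -/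
abbrev Lin : Type := List (ℤ × ℕ)

/-- The value of a linear condition. -/
def linVal (l : Lin) (b : ℕ → ℝ) : ℝ := (l.map fun t => (t.1 : ℝ) * b t.2).sum

/-- The polynomial valuation attached to a linear condition. -/
def polyOf (d : ℕ) (l : Lin) : List ℚ :=
  (List.range d).map fun j =>
    (((l.map fun t => t.1 * (cof d t.2 : ℤ) * (chebPair d t.2).1.getD j 0).sum : ℤ) : ℚ)

lemma polyFun_map (d : ℕ) (g : ℕ → ℚ) (x : ℝ) :
    polyFun ((List.range d).map g) x = ∑ j ∈ range d, (g j : ℝ) * x ^ j := by
  unfold polyFun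
  have : ∀ i : Fin ((List.range d).map g).length, ((List.range d).map g).get i = g i := by
    intro i; simp
  simp only [this]
  rw [Fin.sum_univ_eq_sum_range (fun j => (g j : ℝ) * x ^ j)]
  simp

lemma polyFun_polyOf {d : ℕ} {l : Lin} (hl : ∀ t ∈ l, t.2 < d) (x : ℝ) :
    polyFun (polyOf d l) x = (l.map fun t => (t.1 : ℝ) * cof d t.2 * tch t.2 (1 - 2 * x)).sum := by
  rw [polyOf, polyFun_map]
  induction l with
  | nil => simp
  | cons t l ih =>
    have ht := hl t List.mem_cons_self
    rw [List.map_cons, List.sum_cons, ← ih fun s hs => hl s (List.mem_cons_of_mem _ hs),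
      ← tc_sum x t.2 d ht, Finset.mul_sum, ← Finset.sum_add_distrib]
    refine Finset.sum_congr rfl fun j hj => ?_
    rw [List.map_cons, List.sum_cons, chebPair_fst ht, row_getD _ (mem_range.mp hj)]
    push_cast; ring

lemma side_diff (F : ℝ → ℝ) (x : ℕ → ℝ) (r : ℕ) :
    sideValue F (2 * r + 1) x 0 - sideValue F (2 * r + 1) x 1
      = 2 * ∑ j ∈ range (r + 1), F (x (2 * j + 1)) - 2 * ∑ j ∈ range r, F (x (2 * j + 2))
        - F (x 0) - F (x (2 * r + 2)) := by
  simp only [sideValue, Finset.sum_filter]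
  induction r with
  | zero => simp [Finset.sum_range_succ]; ring
  | succ r ih =>
    have e1 : 2 * (r + 1) + 1 + 1 = 2 * r + 1 + 1 + 1 + 1 := by ring
    have a1 : (2 * r + 1 + 1) % 2 = 0 := by omega
    have a2 : (2 * r + 1 + 1 + 1) % 2 = 1 := by omega
    rw [e1, Finset.sum_range_succ _ (2 * r + 1 + 1 + 1), Finset.sum_range_succ _ (2 * r + 1 + 1),
      Finset.sum_range_succ _ (2 * r + 1 + 1 + 1), Finset.sum_range_succ _ (2 * r + 1 + 1),
      Finset.sum_range_succ (fun j => F (x (2 * j + 1))) (r + 1),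
      Finset.sum_range_succ (fun j => F (x (2 * j + 2))) r]
    simp only [a1, a2, if_true, zero_ne_one, one_ne_zero, if_false, add_zero]
    have b1 : 2 * (r + 1) + 1 = 2 * r + 1 + 1 + 1 := by ring
    have b3 : 2 * r + 2 = 2 * r + 1 + 1 := by ring
    simp only [b1, b3] at ih ⊢
    linarith

lemma side_iff {d : ℕ} {l : Lin} (hl : ∀ t ∈ l, t.2 < d) (r : ℕ) (x : ℕ → ℝ) (h0 : x 0 = 0)
    (h1 : x (2 * r + 2) = 1) :
    sideValue (polyFun (polyOf d l)) (2 * r + 1) x 0 = sideValue (polyFun (polyOf d l)) (2 * r + 1) x 1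
      ↔ linVal l (bb r fun j => 1 - 2 * x j) = 0 := by
  rw [← sub_eq_zero, side_diff, h0, h1]
  simp only [polyFun_polyOf hl]
  have key : 2 * ∑ j ∈ range (r + 1), (l.map fun t => (t.1 : ℝ) * cof d t.2 * tch t.2
        (1 - 2 * x (2 * j + 1))).sum - 2 * ∑ j ∈ range r, (l.map fun t => (t.1 : ℝ) * cof d t.2
        * tch t.2 (1 - 2 * x (2 * j + 2))).sum
      - (l.map fun t => (t.1 : ℝ) * cof d t.2 * tch t.2 (1 - 2 * 0)).sum
      - (l.map fun t => (t.1 : ℝ) * cof d t.2 * tch t.2 (1 - 2 * 1)).sum
      = -2 * fac d * linVal l (bb r fun j => 1 - 2 * x j) := by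
    unfold linVal
    induction l with
    | nil => simp
    | cons t l ih =>
      have a1 := ih fun s hs => hl s (List.mem_cons_of_mem _ hs)
      have a2 := cof_mom r (fun j => 1 - 2 * x j) (hl t List.mem_cons_self)
      have a3 : tch t.2 (1 - 2 * 0) = 1 := by simp [tch]
      have a4 : tch t.2 (1 - 2 * 1) = (-1) ^ t.2 := by
        norm_num [tch]
      simp only [List.map_cons, List.sum_cons, Finset.sum_add_distrib, ← Finset.mul_sum, a3, a4]
      unfold mom at a2
      linear_combination a1 + (t.1 : ℝ) * a2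
  rw [key]
  have : (fac d : ℝ) ≠ 0 := by exact_mod_cast (fac_pos d).ne'
  simp [this]

/-- The list of linear conditions. -/
def conds (n : ℕ) (E : List QF) : List Lin :=
  ((List.range (be n)).map fun m => [((1 : ℤ), m)]) ++
  ((List.range (be n)).map fun e => ((1 : ℤ), be n + e) :: (List.range n).map fun i =>
    (-((if e = i then 1 else 0) + (if e = LL n + n * i then 1 else 0)), be n + i)) ++
  ((List.range (be n)).map fun e => [((1 : ℤ), 2 * be n + e),
    (if e ≤ 4 * LL n then -1 else 0, 2 * be n + (4 * LL n - e))]) ++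
  (E.map fun q => q.map fun t => (t.1, pos n t.2.1 t.2.2)) ++
  [((1 : ℤ), 2 * be n + (LL n + LL n)) :: (List.range n).map fun i => (16 * (n : ℤ), pos n i i)]

lemma conds_bdd {n : ℕ} {E : List QF} (hE : Bdd n E) :
    ∀ l ∈ conds n E, ∀ t ∈ l, t.2 < 3 * be n := by
  have hbe : be n = 8 * LL n + 1 := rfl
  have hL : LL n = n * n + n := rfl
  intro l hl t ht
  simp only [conds, List.mem_append, List.mem_map, List.mem_range, List.mem_singleton] at hl
  rcases hl with (((⟨m, hm, rfl⟩ | ⟨e, he, rfl⟩) | ⟨e, he, rfl⟩) | ⟨q, hq, rfl⟩) | rfl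
  · simp only [List.mem_singleton] at ht
    subst ht; show m < _; omega
  · simp only [List.mem_cons, List.mem_map, List.mem_range] at ht
    rcases ht with rfl | ⟨i, hi, rfl⟩
    · show be n + e < _; omega
    · show be n + i < _; omega
  · simp only [List.mem_cons, List.not_mem_nil, or_false] at ht
    rcases ht with rfl | rfl
    · show 2 * be n + e < _; omega
    · show 2 * be n + (4 * LL n - e) < _; omega
  · simp only [List.mem_map] at ht
    obtain ⟨s, hs, rfl⟩ := ht
    have := pos_bound (i := s.2.1) (hE q hq s hs).2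
    show pos n s.2.1 s.2.2 < _
    unfold pos; omega
  · simp only [List.mem_cons, List.mem_map, List.mem_range] at ht
    rcases ht with rfl | ⟨i, hi, rfl⟩
    · show 2 * be n + (LL n + LL n) < _; omega
    · have := pos_bound (i := i) hi
      show pos n i i < _
      unfold pos; omega

lemma sum_range_list (n : ℕ) (f : ℕ → ℝ) : ((List.range n).map f).sum = ∑ i ∈ range n, f i := by
  rw [Finset.sum_eq_multiset_sum]; rfl

lemma conds_iff (n : ℕ) (E : List QF) (b : ℕ → ℝ) :
    (∀ l ∈ conds n E, linVal l b = 0) ↔ Cond n E b := by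
  simp only [conds, List.forall_mem_append, List.forall_mem_map, List.mem_range,
    List.forall_mem_singleton, Cond, and_assoc, linVal, List.map_cons, List.sum_cons,
    List.map_map, List.map_nil, List.sum_nil, Function.comp_def, sum_range_list]
  refine and_congr (forall₂_congr fun m _ => by simp) (and_congr (forall₂_congr fun e _ => ?_)
    (and_congr (forall₂_congr fun e _ => ?_) (and_congr Iff.rfl ?_)))
  · push_cast
    simp only [neg_mul, Finset.sum_neg_distrib, one_mul]
    exact add_neg_eq_zero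
  · split_ifs
    · push_cast
      constructor <;> intro h <;> linarith
    · simp
  · push_cast
    rw [one_mul, Finset.mul_sum]

/-- The integer coefficients of the valuation attached to a linear condition. -/
def coefOf (d : ℕ) (l : Lin) (j : ℕ) : ℤ :=
  (l.map fun t => t.1 * (cof d t.2 : ℤ) * (chebPair d t.2).1.getD j 0).sum

/-- A slope that dominates the derivative of the valuation on the unit interval. -/
def slope (d : ℕ) (l : Lin) : ℕ :=
  ((List.range d).map fun j => j * (coefOf d l j).natAbs).sum + 1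

/-- The increasing valuation attached to a linear condition. -/
def monoOf (d : ℕ) (l : Lin) : List ℚ :=
  (List.range d).map fun j => ((coefOf d l j + if j = 1 then (slope d l : ℤ) else 0 : ℤ) : ℚ)

lemma polyFun_monoOf {d : ℕ} (hd : 1 < d) (l : Lin) (x : ℝ) :
    polyFun (monoOf d l) x = polyFun (polyOf d l) x + slope d l * x := by
  rw [monoOf, polyOf, polyFun_map, polyFun_map]
  have : (slope d l : ℝ) * x = ∑ j ∈ range d, (if j = 1 then (slope d l : ℝ) * x else 0) := by
    rw [Finset.sum_ite_eq' (range d) 1, if_pos (mem_range.mpr hd)]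
  rw [this, ← Finset.sum_add_distrib]
  refine Finset.sum_congr rfl fun j _ => ?_
  unfold coefOf
  split_ifs with h
  · subst h; push_cast; ring
  · push_cast; ring

lemma monoOf_strictMono {d : ℕ} (hd : 1 < d) (l : Lin) :
    StrictMonoOn (polyFun (monoOf d l)) (Set.Icc 0 1) := by
  intro x hx y hy hxy
  rw [polyFun_monoOf hd, polyFun_monoOf hd, polyOf, polyFun_map, polyFun_map]
  have e : (slope d l : ℝ) = ∑ j ∈ range d, (j : ℝ) * |(coefOf d l j : ℝ)| + 1 := by
    rw [slope, ← sum_range_list]
    push_cast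
    simp [List.map_map, Function.comp_def]
  have h1 : ∀ j ∈ range d, (coefOf d l j : ℝ) * x ^ j - (coefOf d l j : ℝ) * y ^ j
      ≤ (j : ℝ) * |(coefOf d l j : ℝ)| * (y - x) := by
    intro j _
    have a1 := abs_pow_sub_pow_le x y j
    have a2 : max |x| |y| ^ (j - 1) ≤ 1 := pow_le_one₀ (le_max_of_le_left (abs_nonneg _))
      (max_le (abs_le.mpr ⟨by linarith [hx.1], hx.2⟩) (abs_le.mpr ⟨by linarith [hy.1], hy.2⟩))
    have a3 : |x - y| = y - x := by rw [abs_sub_comm, abs_of_pos (by linarith)]
    have a4 : |x ^ j - y ^ j| ≤ (y - x) * j := by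
      rw [a3] at a1
      exact a1.trans (mul_le_of_le_one_right (mul_nonneg (by linarith) (Nat.cast_nonneg _)) a2)
    calc _ = (coefOf d l j : ℝ) * (x ^ j - y ^ j) := by ring
      _ ≤ |(coefOf d l j : ℝ)| * |x ^ j - y ^ j| := by rw [← abs_mul]; exact le_abs_self _
      _ ≤ |(coefOf d l j : ℝ)| * ((y - x) * j) := mul_le_mul_of_nonneg_left a4 (abs_nonneg _)
      _ = _ := by ring
  have h2 := Finset.sum_le_sum h1
  rw [Finset.sum_sub_distrib, ← Finset.sum_mul] at h2
  have h3 : ∀ z : ℝ, ∑ j ∈ range d, ((((l.map fun t => t.1 * (cof d t.2 : ℤ)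
      * (chebPair d t.2).1.getD j 0).sum : ℤ) : ℚ) : ℝ) * z ^ j
      = ∑ j ∈ range d, (coefOf d l j : ℝ) * z ^ j :=
    fun z => Finset.sum_congr rfl fun j _ => by rw [Rat.cast_intCast]; rfl
  rw [h3, h3, e]
  nlinarith

lemma polyFun_id (x : ℝ) : polyFun [0, 1] x = x := by
  simp [polyFun, Fin.sum_univ_succ]

lemma side_mono {d : ℕ} (hd : 1 < d) (l : Lin) (k : ℕ) (x : ℕ → ℝ) (p : ℕ) :
    sideValue (polyFun (monoOf d l)) k x p
      = sideValue (polyFun (polyOf d l)) k x p + slope d l * sideValue (polyFun [0, 1]) k x p := by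
  simp only [sideValue, polyFun_monoOf hd, polyFun_id, Finset.mul_sum, ← Finset.sum_add_distrib]
  exact Finset.sum_congr rfl fun j _ => by ring

lemma side_id {d : ℕ} (hd : 1 < d) (k : ℕ) (x : ℕ → ℝ)
    (h : sideValue (polyFun (polyOf d [(1, 1)])) k x 0
      = sideValue (polyFun (polyOf d [(1, 1)])) k x 1) :
    sideValue (polyFun [0, 1]) k x 0 = sideValue (polyFun [0, 1]) k x 1 := by
  have h1 : ∀ p, sideValue (polyFun (polyOf d [(1, 1)])) k x p
      = -2 * cof d 1 * sideValue (polyFun [0, 1]) k x p := by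
    intro p
    have h0 : ∀ t ∈ ([(1, 1)] : Lin), t.2 < d := by simpa using hd
    simp only [sideValue, polyFun_polyOf h0, polyFun_id, Finset.mul_sum, List.map_cons,
      List.map_nil, List.sum_cons, List.sum_nil, tch_one]
    exact Finset.sum_congr rfl fun j _ => by push_cast; ring
  have h2 : (cof d 1 : ℝ) ≠ 0 := by
    have := cof_mul hd one_ne_zero
    have := fac_pos d
    exact_mod_cast (by omega : cof d 1 ≠ 0)
  rw [h1, h1] at h
  exact mul_left_cancel₀ (mul_ne_zero (by norm_num) h2) h

/-- The Consensus Halving instance of a homogeneous quadratic system. -/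
def chInst (n : ℕ) (E : List QF) : List (List ℚ) × ℕ :=
  ([0, 1] :: (conds n E).map (monoOf (3 * be n)), 2 * (9 * LL n) + 1)

lemma one_lt_be (n : ℕ) : 1 < 3 * be n := by unfold be; omega

theorem chInst_mono (n : ℕ) (E : List QF) :
    ∀ c ∈ (chInst n E).1, StrictMonoOn (polyFun c) (Set.Icc 0 1) := by
  intro c hc
  rcases List.mem_cons.mp hc with rfl | hc
  · intro x _ y _ h
    rwa [polyFun_id, polyFun_id]
  · obtain ⟨l, -, rfl⟩ := List.mem_map.mp hc
    exact monoOf_strictMono (one_lt_be n) l

lemma chInst_side {n : ℕ} (hn : 0 < n) (E : List QF) (k : ℕ) (x : ℕ → ℝ) :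
    (∀ c ∈ (chInst n E).1, sideValue (polyFun c) k x 0 = sideValue (polyFun c) k x 1) ↔
      ∀ l ∈ conds n E, sideValue (polyFun (polyOf (3 * be n) l)) k x 0
        = sideValue (polyFun (polyOf (3 * be n) l)) k x 1 := by
  simp only [chInst, List.forall_mem_cons, List.forall_mem_map, side_mono (one_lt_be n)]
  constructor
  · rintro ⟨h0, h⟩ l hl
    have := h l hl
    rw [h0] at this
    exact add_right_cancel this
  · intro h
    have h1 : 1 < be n := by unfold be LL; omega
    have h0 := side_id (one_lt_be n) k x (h _ (by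
      simp only [conds, List.mem_append, List.mem_map, List.mem_range]
      exact Or.inl (Or.inl (Or.inl (Or.inl ⟨1, h1, rfl⟩)))))
    exact ⟨h0, fun l hl => by rw [h l hl, h0]⟩

theorem chInst_iff {n : ℕ} (hn : 0 < n) {E : List QF} (hE : Bdd n E) :
    PolyCH (bitEncode (chInst n E)) = true ↔ Proj n E := by
  simp only [PolyCH, decide_eq_true_eq, bitEncode_injective.eq_iff]
  constructor
  · rintro ⟨Fs, k, h, x, ⟨h0, h1, -⟩, hx⟩
    obtain ⟨rfl, rfl⟩ := Prod.mk.inj h
    refine sound hE (fun j => 1 - 2 * x j) ((conds_iff _ _ _).mp fun l hl => ?_)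
    exact (side_iff (conds_bdd hE l hl) _ x h0 h1).mp ((chInst_side hn E _ x).mp hx l hl)
  · intro h
    obtain ⟨θ, t1, t2, hc⟩ := complete hE h
    set r := 9 * LL n with hr
    set x : ℕ → ℝ := fun j => if j = 0 then 0 else if j ≤ 2 * r + 1 then (1 - Real.cos (θ j)) / 2
      else 1 with hx
    have h0 : x 0 = 0 := by simp [hx]
    have h1 : x (2 * r + 2) = 1 := by simp [hx]
    have hb : (bb r fun j => 1 - 2 * x j) = bb r fun j => Real.cos (θ j) := by
      have q1 : ∀ j, 1 ≤ j → j ≤ 2 * r + 1 → 1 - 2 * x j = Real.cos (θ j) := by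
        intro j a b
        simp only [hx]
        rw [if_neg (by omega), if_pos b]; ring
      funext m
      have s1 : ∑ j ∈ range (r + 1), tch m (1 - 2 * x (2 * j + 1))
          = ∑ j ∈ range (r + 1), tch m (Real.cos (θ (2 * j + 1))) :=
        Finset.sum_congr rfl fun j hj => by
          rw [q1 (2 * j + 1) (by omega) (by have := mem_range.mp hj; omega)]
      have s2 : ∑ j ∈ range r, tch m (1 - 2 * x (2 * j + 2))
          = ∑ j ∈ range r, tch m (Real.cos (θ (2 * j + 2))) :=
        Finset.sum_congr rfl fun j hj => by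
          rw [q1 (2 * j + 2) (by omega) (by have := mem_range.mp hj; omega)]
      simp only [bb, mom, s1, s2]
    refine ⟨_, _, rfl, x, ⟨h0, h1, fun j hj => ?_⟩, (chInst_side hn E _ x).mpr fun l hl => ?_⟩
    · simp only [hx]
      rw [if_neg (Nat.succ_ne_zero j)]
      by_cases a1 : j = 0
      · subst a1
        rw [if_pos rfl, if_pos (by omega)]
        linarith [Real.cos_le_one (θ (0 + 1))]
      · rw [if_neg a1, if_pos hj]
        split_ifs with a2
        · obtain ⟨b1, -⟩ := t1 j (by omega) hj
          obtain ⟨-, b2⟩ := t1 (j + 1) (by omega) a2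
          have := Real.cos_le_cos_of_nonneg_of_le_pi b1.le b2.le (t2 j).le
          linarith
        · linarith [Real.neg_one_le_cos (θ j)]
    · rw [side_iff (conds_bdd hE l hl) r x h0 h1, hb]
      exact (conds_iff _ _ _).mpr hc l hl

end Pool.Agent.Lib.MP_73cdf8_lc
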