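import Mathlib

/-! Generating function of the Chebyshev moments of an alternating cut sequence. -/

set_option autoImplicit false

noncomputable section

namespace Pool.Agent.Lib.MP_73cdf8_lc

open Finset

section series

open PowerSeries

lemma X_pow_succ_dvd_of_deriv {f : ℝ⟦X⟧} {n : ℕ} (h0 : constantCoeff f = 0)
    (h : (X : ℝ⟦X⟧) ^ n ∣ d⁄dX ℝ f) : (X : ℝ⟦X⟧) ^ (n + 1) ∣ f := by
  rw [X_pow_dvd_iff] at h ⊢
  intro m hm
  cases m with
  | zero => simpa using h0
  | succ m =>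
    have := h m (by omega)
    rw [coeff_derivative] at this
    have h2 : ((m : ℝ) + 1) ≠ 0 := by positivity
    exact (mul_eq_zero.mp this).resolve_right h2

lemma X_pow_dvd_deriv {f : ℝ⟦X⟧} {n : ℕ} (h : (X : ℝ⟦X⟧) ^ (n + 1) ∣ f) :
    (X : ℝ⟦X⟧) ^ n ∣ d⁄dX ℝ f := by
  rw [X_pow_dvd_iff] at h ⊢
  intro m hm
  rw [coeff_derivative, h (m + 1) (by omega), zero_mul]

/-- If `H = artanh (S / A)` has order at least `α`, then `H = S / A` up to order `3 α`. -/
lemma artanh_lemma {H A S : ℝ⟦X⟧} {α : ℕ} (hα : 0 < α) (hH : constantCoeff H = 0)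
    (hA : constantCoeff A = 1) (hS : constantCoeff S = 0)
    (h : d⁄dX ℝ H * (A ^ 2 - S ^ 2) = d⁄dX ℝ S * A - d⁄dX ℝ A * S)
    (hd : (X : ℝ⟦X⟧) ^ α ∣ H ∨ (X : ℝ⟦X⟧) ^ α ∣ S) :
    (X : ℝ⟦X⟧) ^ α ∣ S ∧ (X : ℝ⟦X⟧) ^ (3 * α) ∣ A * H - S := by
  obtain ⟨a, rfl⟩ : ∃ a, α = a + 1 := ⟨α - 1, by omega⟩
  have hA0 : constantCoeff A ≠ 0 := by rw [hA]; exact one_ne_zero
  set B := S * A⁻¹ with hB
  have hAB : A * B = S := by
    rw [hB, mul_left_comm, PowerSeries.mul_inv_cancel _ hA0, mul_one]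
  have hB0 : constantCoeff B = 0 := by rw [hB, map_mul, hS, zero_mul]
  have hAne : A ≠ 0 := fun h0 => hA0 (by rw [h0, map_zero])
  have hS' : d⁄dX ℝ S = A * d⁄dX ℝ B + B * d⁄dX ℝ A := by
    rw [← hAB, Derivation.leibniz, smul_eq_mul, smul_eq_mul]
  have key : d⁄dX ℝ H * (1 - B ^ 2) = d⁄dX ℝ B := by
    apply mul_left_cancel₀ (pow_ne_zero 2 hAne)
    rw [hS', ← hAB] at h
    linear_combination h
  have hu : IsUnit (1 - B ^ 2) := by
    rw [PowerSeries.isUnit_iff_constantCoeff]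
    simp [hB0]
  have hAu : IsUnit A := by
    rw [PowerSeries.isUnit_iff_constantCoeff, hA]; exact isUnit_one
  have hBd : (X : ℝ⟦X⟧) ^ (a + 1) ∣ B := by
    rcases hd with hd | hd
    · exact X_pow_succ_dvd_of_deriv hB0 (key ▸ (X_pow_dvd_deriv hd).mul_right _)
    · rw [← hAB] at hd
      exact (hAu.dvd_mul_left).mp hd
  have hH' : (X : ℝ⟦X⟧) ^ a ∣ d⁄dX ℝ H := by
    have := X_pow_dvd_deriv hBd
    rw [← key] at this
    exact (hu.dvd_mul_right).mp this
  have hdiff : d⁄dX ℝ (H - B) = d⁄dX ℝ H * (B * B) := by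
    rw [map_sub]; linear_combination key
  have h3 : (X : ℝ⟦X⟧) ^ (3 * a + 2) ∣ d⁄dX ℝ (H - B) := by
    rw [hdiff]
    have : (X : ℝ⟦X⟧) ^ (3 * a + 2) = X ^ a * (X ^ (a + 1) * X ^ (a + 1)) := by ring
    rw [this]
    exact mul_dvd_mul hH' (mul_dvd_mul hBd hBd)
  have h4 := X_pow_succ_dvd_of_deriv (by rw [map_sub, hH, hB0, sub_zero]) h3
  refine ⟨hAB ▸ hBd.mul_left _, ?_⟩
  have e : 3 * (a + 1) = 3 * a + 2 + 1 := by ring
  rw [e, ← hAB, ← mul_sub]
  exact h4.mul_left _

end series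

open Polynomial

/-- The quadratic factor with roots `exp (± i θ)` when `c = cos θ`. -/
def quadf (c : ℝ) : ℝ[X] := X ^ 2 - C (2 * c) * X + 1

/-- The value of the Chebyshev polynomial. -/
def tch (m : ℕ) (c : ℝ) : ℝ := (Chebyshev.T ℝ (m : ℤ)).eval c

lemma tch_zero (c : ℝ) : tch 0 c = 1 := by simp [tch]
lemma tch_one (c : ℝ) : tch 1 c = c := by simp [tch]
lemma tch_add_two (m : ℕ) (c : ℝ) : tch (m + 2) c = 2 * c * tch (m + 1) c - tch m c := by
  unfold tch
  push_cast
  rw [Chebyshev.T_add_two]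
  simp

/-- `g` is the logarithmic derivative of `P`. -/
def LD (P : ℝ[X]) (g : PowerSeries ℝ) : Prop :=
  g * (P : PowerSeries ℝ) = ((derivative P : ℝ[X]) : PowerSeries ℝ)

lemma LD.mul {P Q : ℝ[X]} {g h : PowerSeries ℝ} (hP : LD P g) (hQ : LD Q h) :
    LD (P * Q) (g + h) := by
  unfold LD at *
  rw [derivative_mul]
  push_cast
  linear_combination (Q : PowerSeries ℝ) * hP + (P : PowerSeries ℝ) * hQ

lemma LD.prod {ι : Type} (s : Finset ι) (P : ι → ℝ[X]) (g : ι → PowerSeries ℝ)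
    (h : ∀ i ∈ s, LD (P i) (g i)) : LD (∏ i ∈ s, P i) (∑ i ∈ s, g i) := by
  classical
  induction s using Finset.induction_on with
  | empty => simp [LD]
  | insert a s ha ih =>
    rw [Finset.prod_insert ha, Finset.sum_insert ha]
    exact (h a (mem_insert_self _ _)).mul (ih fun i hi => h i (mem_insert_of_mem hi))

lemma LD_quadf (c : ℝ) : LD (quadf c) (PowerSeries.mk fun m => -2 * tch (m + 1) c) := by
  unfold LD quadf
  have e : ((X ^ 2 - C (2 * c) * X + 1 : ℝ[X]) : PowerSeries ℝ)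
      = PowerSeries.X * PowerSeries.X - PowerSeries.C (2 * c) * PowerSeries.X + 1 := by
    push_cast; ring
  rw [e]
  ext m
  simp only [mul_add, mul_sub, mul_one, ← mul_assoc, map_add, map_sub, Polynomial.coeff_coe,
    PowerSeries.coeff_mk]
  rcases m with _ | _ | m
  · simp [tch_one]
  · simp [PowerSeries.coeff_succ_mul_X, tch_add_two 0, tch_one, tch_zero]
    ring
  · simp only [PowerSeries.coeff_succ_mul_X, PowerSeries.coeff_mul_C, PowerSeries.coeff_mk,
      tch_add_two (m + 1)]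
    simp [Polynomial.coeff_one]
    ring

lemma LD_one_sub : LD (1 - X ^ 2) (PowerSeries.mk fun m => -(1 + (-1) ^ (m + 1))) := by
  unfold LD
  have e : ((1 - X ^ 2 : ℝ[X]) : PowerSeries ℝ) = 1 - PowerSeries.X * PowerSeries.X := by
    push_cast; ring
  rw [e]
  ext m
  simp only [mul_sub, mul_one, ← mul_assoc, map_sub, Polynomial.coeff_coe, PowerSeries.coeff_mk]
  rcases m with _ | _ | m
  · simp
  · simp [PowerSeries.coeff_succ_mul_X]
  · simp [PowerSeries.coeff_succ_mul_X, Polynomial.coeff_X, pow_succ]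

/-- Product over the odd cuts. -/
def polN (r : ℕ) (c : ℕ → ℝ) : ℝ[X] := ∏ j ∈ range (r + 1), quadf (c (2 * j + 1))
/-- Product over the even cuts and the end points. -/
def polD (r : ℕ) (c : ℕ → ℝ) : ℝ[X] := (1 - X ^ 2) * ∏ j ∈ range r, quadf (c (2 * j + 2))

/-- The alternating Chebyshev moment. -/
def mom (r : ℕ) (c : ℕ → ℝ) (m : ℕ) : ℝ :=
  2 * ∑ j ∈ range (r + 1), tch m (c (2 * j + 1)) - 2 * ∑ j ∈ range r, tch m (c (2 * j + 2))
    - 1 - (-1) ^ m

/-- The rescaled moment. -/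
def bb (r : ℕ) (c : ℕ → ℝ) (m : ℕ) : ℝ := -mom r c m / (2 * m)

lemma gen_eq (r : ℕ) (c : ℕ → ℝ) :
    2 * PowerSeries.derivative ℝ (PowerSeries.mk (bb r c)) * (polN r c * polD r c : ℝ[X])
      = (derivative (polN r c) * polD r c - polN r c * derivative (polD r c) : ℝ[X]) := by
  have h1 := LD.prod (range (r + 1)) (fun j => quadf (c (2 * j + 1))) _ fun j _ => LD_quadf _
  have h2 := LD_one_sub.mul
    (LD.prod (range r) (fun j => quadf (c (2 * j + 2))) _ fun j _ => LD_quadf _)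
  have e : 2 * PowerSeries.derivative ℝ (PowerSeries.mk (bb r c))
      = (∑ j ∈ range (r + 1), PowerSeries.mk fun m => -2 * tch (m + 1) (c (2 * j + 1)))
        - ((PowerSeries.mk fun m => -(1 + (-1) ^ (m + 1)))
          + ∑ j ∈ range r, PowerSeries.mk fun m => -2 * tch (m + 1) (c (2 * j + 2))) := by
    ext m
    have : (2 : PowerSeries ℝ) = PowerSeries.C 2 := rfl
    rw [this, PowerSeries.coeff_C_mul, PowerSeries.coeff_derivative]
    simp only [map_sub, map_add, map_sum, PowerSeries.coeff_mk, bb, mom, ← Finset.mul_sum]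
    push_cast
    field_simp
    ring
  change LD (polN r c) _ at h1
  change LD (polD r c) _ at h2
  unfold LD at h1 h2
  rw [e]
  push_cast
  linear_combination ((polD r c : ℝ[X]) : PowerSeries ℝ) * h1
    - ((polN r c : ℝ[X]) : PowerSeries ℝ) * h2

lemma main_dvd (r : ℕ) (c : ℕ → ℝ) (A S : ℝ[X]) (hN : polN r c = A + S) (hD : polD r c = A - S)
    (hA : A.coeff 0 = 1) (hS : S.coeff 0 = 0) {α : ℕ} (hα : 0 < α)
    (hd : (∀ m < α, bb r c m = 0) ∨ X ^ α ∣ S) :
    X ^ α ∣ S ∧ (PowerSeries.X : PowerSeries ℝ) ^ (3 * α)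
      ∣ (A : PowerSeries ℝ) * PowerSeries.mk (bb r c) - S := by
  have h := gen_eq r c
  rw [hN, hD] at h
  have conv : X ^ α ∣ S ↔ (PowerSeries.X : PowerSeries ℝ) ^ α ∣ (S : PowerSeries ℝ) := by
    rw [Polynomial.X_pow_dvd_iff, PowerSeries.X_pow_dvd_iff]
    simp only [Polynomial.coeff_coe]
  rw [conv] at hd ⊢
  refine artanh_lemma hα (by simp [bb]) (by simpa using hA) (by simpa using hS) ?_ ?_
  · rw [PowerSeries.derivative_coe, PowerSeries.derivative_coe]
    rw [derivative_add, derivative_sub] at h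
    push_cast at h
    have h2 : (2 : PowerSeries ℝ) ≠ 0 := by
      have : (2 : PowerSeries ℝ) = PowerSeries.C 2 := rfl
      rw [this]
      intro h0
      have := congrArg PowerSeries.constantCoeff h0
      simp at this
    apply mul_left_cancel₀ h2
    linear_combination h
  · rcases hd with hd | hd
    · left
      rw [PowerSeries.X_pow_dvd_iff]
      intro m hm
      rw [PowerSeries.coeff_mk, hd m hm]
    · exact Or.inr hd

lemma natDegree_reflect_le' {N : ℕ} {p : ℝ[X]} (h : p.natDegree ≤ N) :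
    (reflect N p).natDegree ≤ N :=
  natDegree_reflect_le.trans (max_le le_rfl h)

lemma eq_zero_of_X_pow_dvd {p : ℝ[X]} {n : ℕ} (h : X ^ n ∣ p) (hp : p.natDegree < n) : p = 0 :=
  Polynomial.eq_zero_of_dvd_of_natDegree_lt h (by simpa using hp)

/-- The square of the modulus subtracted from one, as a palindromic polynomial. -/
def polW (σ : ℕ) (U : ℝ[X]) : ℝ[X] := X ^ σ - U * reflect σ U

lemma polW_natDegree {σ : ℕ} {U : ℝ[X]} (hU : U.natDegree ≤ σ) :
    (polW σ U).natDegree ≤ σ + σ := by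
  unfold polW
  refine (natDegree_sub_le _ _).trans (max_le (by simp) ?_)
  exact natDegree_mul_le.trans (add_le_add hU (natDegree_reflect_le' hU))

lemma polW_reflect {σ : ℕ} {U : ℝ[X]} (hU : U.natDegree ≤ σ) :
    reflect (σ + σ) (polW σ U) = polW σ U := by
  unfold polW
  rw [reflect_sub, reflect_mul _ _ hU (natDegree_reflect_le' hU), reflect_reflect,
    reflect_monomial, revAt_le (by omega), mul_comm]
  congr 2
  omega

/-- The algebraic rigidity step. -/
lemma rigid {A U0 U1 : ℝ[X]} {β σ : ℕ} (hβ : 4 * σ < β) (hA : A.natDegree ≤ β + (β + σ))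
    (hA0 : A.coeff 0 = 1) (hU0 : U0.natDegree ≤ σ) (hU1 : U1.natDegree ≤ σ + σ)
    (hsym : reflect (σ + σ) U1 = U1) (h1 : X ^ β ∣ reflect (β + (β + σ)) A)
    (h : X ^ (3 * β) ∣ A * (X ^ β * U0 + X ^ (2 * β) * U1) - reflect (β + (β + σ)) A) :
    U1 = polW σ U0 ∨ U1 = -polW σ U0 := by
  have hAne : A ≠ 0 := fun h0 => by simp [h0] at hA0
  have hA' : A.natDegree ≤ β + σ := by
    rw [natDegree_le_iff_coeff_eq_zero]
    intro m hm
    by_cases hm2 : m ≤ β + (β + σ)
    · have := (Polynomial.X_pow_dvd_iff.mp h1) (β + (β + σ) - m) (by omega)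
      rw [coeff_reflect, revAt_le (by omega)] at this
      rwa [show β + (β + σ) - (β + (β + σ) - m) = m by omega] at this
    · exact coeff_eq_zero_of_natDegree_lt (by omega)
  set Ar := reflect (β + σ) A with hAr
  have hS : reflect (β + (β + σ)) A = X ^ β * Ar := by
    have := reflect_mul (1 : ℝ[X]) A (F := β) (G := β + σ) (by simp) hA'
    rwa [one_mul, reflect_one] at this
  have hArd : Ar.natDegree ≤ β + σ := natDegree_reflect_le' hA'
  rw [hS] at h
  have h2 : X ^ (β + β) ∣ A * (U0 + X ^ β * U1) - Ar := by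
    have e1 : (X : ℝ[X]) ^ (3 * β) = X ^ β * X ^ (β + β) := by ring
    have e2 : A * (X ^ β * U0 + X ^ (2 * β) * U1) - X ^ β * Ar
        = X ^ β * (A * (U0 + X ^ β * U1) - Ar) := by ring
    rw [e1, e2] at h
    exact (mul_dvd_mul_iff_left (pow_ne_zero _ X_ne_zero)).mp h
  obtain ⟨Q, hQ⟩ := h2
  set E1 := A * U1 - X ^ β * Q with hE1
  have hE : Ar - A * U0 = X ^ β * E1 := by rw [hE1]; linear_combination -hQ
  have hEd : (Ar - A * U0).natDegree ≤ β + σ + σ :=
    (natDegree_sub_le _ _).trans (max_le (by omega) (natDegree_mul_le.trans (add_le_add hA' hU0)))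
  have hE1d : E1.natDegree ≤ σ + σ := by
    by_cases h0 : E1 = 0
    · simp [h0]
    · rw [hE, natDegree_X_pow_mul _ h0] at hEd
      omega
  set Er := reflect (σ + σ) E1 with hEr
  have hErd : Er.natDegree ≤ σ + σ := natDegree_reflect_le' hE1d
  have hrefl : A * X ^ σ - Ar * reflect σ U0 = Er := by
    have a1 := congrArg (reflect (β + σ + σ)) hE
    have a2 := reflect_mul Ar (1 : ℝ[X]) (F := β + σ) (G := σ) hArd (by simp)
    have a3 := reflect_mul (X ^ β : ℝ[X]) E1 (F := β) (G := σ + σ) (by simp) hE1d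
    rw [mul_one, reflect_one, hAr, reflect_reflect] at a2
    rw [reflect_monomial, revAt_le le_rfl, Nat.sub_self, pow_zero, one_mul, ← add_assoc] at a3
    rw [reflect_sub, reflect_mul _ _ hA' hU0, a3, hAr, a2] at a1
    exact a1
  set W := polW σ U0 with hW
  have hAW : A * W = Er + X ^ β * (E1 * reflect σ U0) := by
    rw [hW, polW]
    linear_combination hrefl + reflect σ U0 * hE
  have hWd : W.natDegree ≤ σ + σ := polW_natDegree hU0
  have k1 : Er * U1 - E1 * W = 0 := by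
    refine eq_zero_of_X_pow_dvd (n := β) ⟨Q * W - E1 * reflect σ U0 * U1, ?_⟩ ?_
    · rw [hE1] at hAW ⊢
      linear_combination (-U1) * hAW
    · refine lt_of_le_of_lt (natDegree_sub_le _ _) (max_lt ?_ ?_)
      · exact lt_of_le_of_lt (natDegree_mul_le.trans (add_le_add hErd hU1)) (by omega)
      · exact lt_of_le_of_lt (natDegree_mul_le.trans (add_le_add hE1d hWd)) (by omega)
  have k2 : E1 * U1 - Er * W = 0 := by
    have := congrArg (reflect (σ + σ + (σ + σ))) k1
    rwa [reflect_sub, reflect_mul _ _ hErd hU1, reflect_mul _ _ hE1d hWd, hsym, hEr,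
      reflect_reflect, hW, polW_reflect hU0, reflect_zero] at this
  by_cases h0 : E1 = 0
  · have hEr0 : Er = 0 := by rw [hEr, h0, reflect_zero]
    rw [hEr0, h0] at hAW
    have hW0 : W = 0 := by simpa [hAne] using hAW
    have hU : X ^ β ∣ A * U1 := ⟨Q, by rw [hE1] at h0; linear_combination h0⟩
    have hcop : IsCoprime (X ^ β : ℝ[X]) A := by
      apply IsCoprime.pow_left
      refine ⟨-A.divX, 1, ?_⟩
      have := X_mul_divX_add A
      rw [hA0] at this
      simp only [map_one] at this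
      linear_combination -this
    have := eq_zero_of_X_pow_dvd (hcop.dvd_of_dvd_mul_left hU) (by omega)
    left; rw [this, hW0]
  · have k3 : E1 * ((U1 - W) * (U1 + W)) = 0 := by linear_combination U1 * k2 + W * k1
    rcases mul_eq_zero.mp ((mul_eq_zero.mp k3).resolve_left h0) with h | h
    · left; exact sub_eq_zero.mp h
    · right; exact eq_neg_of_add_eq_zero_left h

end Pool.Agent.Lib.MP_73cdf8_lc
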